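import Pool.Agent.T6.H92.CB.Defs
import Mathlib

/-!
Module CNT (helper13): counting by linear algebra over `F₂`.
-/

set_option autoImplicit false

namespace Pool.Agent.T6.H92.CB
namespace ModCNT

/-- a bit as an element of `F₂` -/
def bz (b : Bool) : ZMod 2 := if b then 1 else 0

theorem bz_inj {a b : Bool} (h : bz a = bz b) : a = b := by
  revert h; cases a <;> cases b <;> decide

theorem bz_mul (a b : Bool) : bz a * bz b = bz (a && b) := by
  cases a <;> cases b <;> decide

theorem cast_bz (k : ℕ) : (k : ZMod 2) = bz (decide (k % 2 = 1)) := by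
  rcases Nat.mod_two_eq_zero_or_one k with h | h
  · rw [h]; simp only [bz]
    have : (k : ZMod 2) = 0 := by
      rw [ZMod.natCast_eq_zero_iff]; exact Nat.dvd_of_mod_eq_zero h
    simp [this]
  · rw [h]; simp only [bz]
    have : (k : ZMod 2) = 1 := by
      have h2 : (k : ZMod 2) = ((k % 2 : ℕ) : ZMod 2) := by rw [ZMod.natCast_mod]
      rw [h2, h]; simp
    simp [this]

theorem sum_filter (m : ℕ) (f : ℕ → Bool) :
    ∑ j : Fin m, bz (f j) = (((List.range m).filter f).length : ZMod 2) := by
  induction m with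
  | zero => simp
  | succ m ih =>
    rw [Fin.sum_univ_castSucc, List.range_succ, List.filter_append, List.length_append]
    push_cast
    rw [← ih]
    congr 1
    simp only [List.filter_singleton]
    cases h : f m <;> simp [bz]

theorem ipar_eq (m q : ℕ) (v x : List Bool) :
    ∑ j : Fin m, bz (v.getD j false) * bz (x.getD (q * m + j) false) = bz (ipar m q v x) := by
  simp only [bz_mul]
  rw [sum_filter m (fun j => v.getD j false && x.getD (q * m + j) false), cast_bz]
  rfl

/-- the vector of a list -/
def vec (m : ℕ) (v : List Bool) : Fin m → ZMod 2 := fun j => bz (v.getD j false)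

theorem getD_inj {v v' : List Bool} (hl : v.length = v'.length)
    (h : ∀ j < v.length, v.getD j false = v'.getD j false) : v = v' := by
  refine List.ext_getElem hl fun j h1 h2 => ?_
  have := h j h1
  rwa [List.getD_eq_getElem _ _ h1, List.getD_eq_getElem _ _ h2] at this

theorem vec_inj {m : ℕ} {v v' : List Bool} (h1 : v.length = m) (h2 : v'.length = m)
    (h : vec m v = vec m v') : v = v' := by
  refine getD_inj (h1.trans h2.symm) fun j hj => ?_
  exact bz_inj (congrFun h ⟨j, h1 ▸ hj⟩)

/-- the rows of a list of length `m * w` -/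
def rows (m w : ℕ) (x : List Bool) : Fin w → Fin m → ZMod 2 :=
  fun q j => bz (x.getD (q * m + j) false)

theorem rows_inj {m w : ℕ} {x x' : List Bool} (h1 : x.length = m * w) (h2 : x'.length = m * w)
    (h : rows m w x = rows m w x') : x = x' := by
  refine getD_inj (h1.trans h2.symm) fun i hi => ?_
  rw [h1] at hi
  have hm : 0 < m := by
    rcases Nat.eq_zero_or_pos m with h0 | h0
    · rw [h0, zero_mul] at hi; omega
    · exact h0
  have hq : i / m < w := Nat.div_lt_of_lt_mul hi
  have hj : i % m < m := Nat.mod_lt _ hm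
  have := bz_inj (congrFun (congrFun h ⟨i / m, hq⟩) ⟨i % m, hj⟩)
  simp only at this
  have e : i / m * m + i % m = i := by rw [mul_comm]; exact Nat.div_add_mod i m
  rwa [e] at this

/-- choice of independent labels -/
theorem exists_indep (m ρ : ℕ) (L : Finset (List Bool)) (hL : ∀ v ∈ L, v.length = m)
    (hc : 2 ^ ρ ≤ L.card) : ∃ v : Fin ρ → List Bool, (∀ i, v i ∈ L) ∧
      LinearIndependent (ZMod 2) (fun i => vec m (v i)) := by
  classical
  have : Fact (Nat.Prime 2) := ⟨Nat.prime_two⟩
  set V0 : Set (Fin m → ZMod 2) := ((L.image (vec m) : Finset (Fin m → ZMod 2)) :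
    Set (Fin m → ZMod 2)) with hV0
  have hcard : (L.image (vec m)).card = L.card := by
    refine Finset.card_image_of_injOn fun a ha b hb hab => ?_
    exact vec_inj (hL a ha) (hL b hb) hab
  obtain ⟨b, hbV, hspan, hind⟩ := exists_linearIndependent (ZMod 2) V0
  have hbfin : b.Finite := (Finset.finite_toSet _).subset hbV
  have : Fintype b := hbfin.fintype
  have hfr : Module.finrank (ZMod 2) (Submodule.span (ZMod 2) V0) = Fintype.card b := by
    have h1 := finrank_span_eq_card hind
    rw [Subtype.range_coe] at h1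
    rw [← hspan, h1]
  have hle : L.card ≤ 2 ^ Fintype.card b := by
    have h1 : Nat.card (Submodule.span (ZMod 2) V0) = 2 ^ Fintype.card b := by
      rw [Module.natCard_eq_pow_finrank (K := ZMod 2), hfr, Nat.card_eq_fintype_card, ZMod.card]
    rw [← h1, ← hcard]
    have h2 : Nat.card V0 ≤ Nat.card (Submodule.span (ZMod 2) V0) := by
      refine Nat.card_le_card_of_injective
        (fun x : V0 => (⟨x.1, Submodule.subset_span x.2⟩ : Submodule.span (ZMod 2) V0)) ?_
      intro a b hab
      have h3 := congrArg Subtype.val hab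
      exact Subtype.ext h3
    refine le_trans (le_of_eq ?_) h2
    rw [hV0]
    simp
  have hρ : ρ ≤ Fintype.card b := by
    by_contra hlt
    have : 2 ^ Fintype.card b < 2 ^ ρ := Nat.pow_lt_pow_right (by norm_num) (not_le.1 hlt)
    omega
  have hemb : Nonempty (Fin ρ ↪ b) := by
    rw [Function.Embedding.nonempty_iff_card_le, Fintype.card_fin]
    exact hρ
  obtain ⟨f⟩ := hemb
  have hmem : ∀ i, ∃ v ∈ L, vec m v = (f i : Fin m → ZMod 2) := by
    intro i
    have := hbV (f i).2
    rw [hV0, Finset.mem_coe, Finset.mem_image] at this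
    exact this
  choose v hv1 hv2 using hmem
  refine ⟨v, hv1, ?_⟩
  have : (fun i => vec m (v i)) = (fun x : b => (x : Fin m → ZMod 2)) ∘ f := by
    funext i; exact hv2 i
  rw [this]
  exact hind.comp f f.injective

/-- surjectivity -/
theorem surj (m ρ : ℕ) (v : Fin ρ → Fin m → ZMod 2) (hv : LinearIndependent (ZMod 2) v)
    (y : Fin ρ → ZMod 2) : ∃ x : Fin m → ZMod 2, ∀ i, ∑ j, v i j * x j = y i := by
  have : Fact (Nat.Prime 2) := ⟨Nat.prime_two⟩
  set A : Matrix (Fin ρ) (Fin m) (ZMod 2) := Matrix.of v with hA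
  have hr : A.rank = ρ := by
    have : LinearIndependent (ZMod 2) A.row := hv
    rw [this.rank_matrix, Fintype.card_fin]
  have htop : LinearMap.range A.mulVecLin = ⊤ := by
    apply Submodule.eq_top_of_finrank_eq
    rw [Module.finrank_fin_fun]
    exact hr
  have hs := LinearMap.range_eq_top.1 htop
  obtain ⟨x, hx⟩ := hs y
  refine ⟨x, fun i => ?_⟩
  have := congrFun hx i
  rw [Matrix.mulVecLin_apply] at this
  exact this

/-- the linear map -/
def Phi (m w ρ : ℕ) (v : Fin ρ → Fin m → ZMod 2) :
    (Fin w → Fin m → ZMod 2) →+ (Fin ρ → Fin w → ZMod 2) where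
  toFun x := fun i q => ∑ j, v i j * x q j
  map_zero' := by funext i q; simp
  map_add' x y := by
    funext i q
    simp only [Pi.add_apply, mul_add, Finset.sum_add_distrib]

theorem Phi_surj (m w ρ : ℕ) (v : Fin ρ → Fin m → ZMod 2) (hv : LinearIndependent (ZMod 2) v) :
    Function.Surjective (Phi m w ρ v) := by
  intro y
  have h : ∀ q : Fin w, ∃ x : Fin m → ZMod 2, ∀ i, ∑ j, v i j * x j = y i q := fun q =>
    surj m ρ v hv (fun i => y i q)
  choose x hx using h
  exact ⟨x, by funext i q; exact hx q i⟩

end ModCNT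

open ModCNT in
theorem cnt : StmCNT := by
  classical
  intro m w ρ E hE hc S hS
  obtain ⟨v, hvL, hvi⟩ := exists_indep m ρ (E.image Prod.fst) (by
    intro v hv
    obtain ⟨e, he, rfl⟩ := Finset.mem_image.1 hv
    exact hE e he) hc
  have hex : ∀ i, ∃ e ∈ E, e.1 = v i := fun i => Finset.mem_image.1 (hvL i)
  choose e heE hev using hex
  set F := Phi m w ρ (fun i => vec m (v i)) with hF
  have hsurj : Function.Surjective F := Phi_surj m w ρ _ hvi
  set c : ℕ := (Finset.univ.filter (fun x => F x = 0)).card with hcdef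
  have hfib : ∀ y, (Finset.univ.filter (fun x => F x = y)).card = c := by
    intro y
    exact AddMonoidHom.card_fiber_eq_of_mem_range F (hsurj y) (hsurj 0)
  set Bd : Finset (Fin ρ → Fin w → ZMod 2) :=
    Fintype.piFinset (fun i => Finset.univ.erase (fun q : Fin w => bz ((e i).2.testBit q)))
    with hBd
  have hBdc : Bd.card = (2 ^ w - 1) ^ ρ := by
    rw [hBd, Fintype.card_piFinset]
    simp [Finset.card_erase_of_mem, ZMod.card]
  have hpre : ∀ D : Finset (Fin ρ → Fin w → ZMod 2),
      (Finset.univ.filter (fun x => F x ∈ D)).card = D.card * c := by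
    intro D
    rw [Finset.card_eq_sum_card_fiberwise (f := F) (t := D) (by
      intro x hx
      simpa using hx)]
    rw [Finset.sum_congr rfl (g := fun _ => c)]
    · simp
    · intro y hy
      rw [← hfib y]
      congr 1
      ext x
      simp only [Finset.mem_filter, Finset.mem_univ, true_and]
      exact ⟨fun h => h.2, fun h => ⟨h ▸ hy, h⟩⟩
  have htot : 2 ^ (m * w) = (2 ^ w) ^ ρ * c := by
    have h1 := hpre Finset.univ
    simp only [Finset.mem_univ, Finset.filter_true, Finset.card_univ, Fintype.card_pi,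
      Finset.prod_const, Fintype.card_fin, ZMod.card] at h1
    rw [← h1, pow_mul]
  have hSB : S.card ≤ (2 ^ w - 1) ^ ρ * c := by
    rw [← hBdc, ← hpre Bd]
    refine Finset.card_le_card_of_injOn (rows m w) ?_ ?_
    · intro x hx
      have hx' := hS x (by simpa using hx)
      simp only [Finset.coe_filter, Finset.mem_univ, true_and, Set.mem_ofPred_eq]
      rw [hBd, Fintype.mem_piFinset]
      intro i
      rw [Finset.mem_erase]
      refine ⟨fun heq => ?_, Finset.mem_univ _⟩
      obtain ⟨q, hq, hne⟩ := hx'.2 (e i) (heE i)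
      have h2 := congrFun heq ⟨q, hq⟩
      have h3 : F (rows m w x) i ⟨q, hq⟩ = bz (ipar m q (v i) x) := by
        rw [← ipar_eq]; rfl
      rw [h3] at h2
      apply hne
      rw [hev i]
      exact (bz_inj h2).symm
    · intro x hx y hy hxy
      exact rows_inj (hS x (by simpa using hx)).1 (hS y (by simpa using hy)).1 hxy
  calc S.card * (2 ^ w) ^ ρ ≤ ((2 ^ w - 1) ^ ρ * c) * (2 ^ w) ^ ρ :=
        Nat.mul_le_mul_right _ hSB
    _ = (2 ^ w - 1) ^ ρ * 2 ^ (m * w) := by rw [htot]; ring

end Pool.Agent.T6.H92.CB
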