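import Pool.Agent.T6.H92.CB.Defs

/-!
Project CB, module CRD: the number of the candidates.
-/

set_option autoImplicit false

namespace Pool.Agent.T6.H92.CB

open Pool.Agent.Helper227 (chi pre SI S1)

namespace ModCRD

/-- `b` is active on level `i`, in `B`, with a new label -/
def New (ap : ℕ → List Bool) (B : ℕ → Bool) (i b : ℕ) : Prop :=
  B b = true ∧ si i ≤ b ∧ ∀ b' < b, B b' = true → si i ≤ b' → lab ap i b' ≠ lab ap i b

theorem mem_fv (ap : ℕ → List Bool) (B : ℕ → Bool) (i s b : ℕ) :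
    b ∈ fv ap i (pre B s) ↔ b < s ∧ New ap B i b := by
  unfold fv New
  rw [List.mem_filter, List.mem_range, Pool.Agent.Helper227.length_pre, decide_eq_true_eq]
  constructor
  · rintro ⟨hb, h1, h2, h3⟩
    rw [Pool.Agent.Helper227.pre_getD B s b false hb] at h1
    refine ⟨hb, h1, h2, fun b' hb' h4 h5 => h3 b' hb' ?_ h5⟩
    rw [Pool.Agent.Helper227.pre_getD B s b' false (hb'.trans hb)]
    exact h4
  · rintro ⟨hb, h1, h2, h3⟩
    refine ⟨hb, ?_, h2, fun b' hb' h4 h5 => h3 b' hb' ?_ h5⟩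
    · rw [Pool.Agent.Helper227.pre_getD B s b false hb]
      exact h1
    · rw [Pool.Agent.Helper227.pre_getD B s b' false (hb'.trans hb)] at h4
      exact h4

open Classical in
theorem length_fv (ap : ℕ → List Bool) (B : ℕ → Bool) (i s : ℕ) :
    (fv ap i (pre B s)).length = ((Finset.range s).filter (New ap B i)).card := by
  have hn : (fv ap i (pre B s)).Nodup := by
    unfold fv
    exact List.Nodup.filter _ List.nodup_range
  rw [← List.toFinset_card_of_nodup hn]
  congr 1
  ext b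
  rw [List.mem_toFinset, mem_fv, Finset.mem_filter, Finset.mem_range]

theorem length_mono (ap : ℕ → List Bool) (B : ℕ → Bool) (i : ℕ) {s t : ℕ} (h : s ≤ t) :
    (fv ap i (pre B s)).length ≤ (fv ap i (pre B t)).length := by
  classical
  rw [length_fv, length_fv]
  apply Finset.card_le_card
  intro b hb
  rw [Finset.mem_filter, Finset.mem_range] at hb ⊢
  exact ⟨hb.1.trans_le h, hb.2⟩

theorem length_lt (ap : ℕ → List Bool) (B : ℕ → Bool) (i : ℕ) {s t : ℕ} (h : s < t)
    (hs : New ap B i s) : (fv ap i (pre B s)).length < (fv ap i (pre B t)).length := by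
  classical
  rw [length_fv, length_fv]
  apply Finset.card_lt_card
  rw [Finset.ssubset_iff_of_subset]
  · refine ⟨s, ?_, ?_⟩
    · rw [Finset.mem_filter, Finset.mem_range]
      exact ⟨h, hs⟩
    · rw [Finset.mem_filter, Finset.mem_range]
      exact fun h => absurd h.1 (lt_irrefl s)
  · intro b hb
    rw [Finset.mem_filter, Finset.mem_range] at hb ⊢
    exact ⟨hb.1.trans h, hb.2⟩

theorem bern (i : ℕ) : 1 + 7 * i ≤ 8 ^ i := by
  induction i with
  | zero => simp
  | succ n ih => rw [pow_succ]; omega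

theorem li_ge (i : ℕ) : 16 * i ≤ li i := by
  unfold li mi wi
  have h := bern i
  nlinarith

theorem lab_length (ap : ℕ → List Bool) (hap : ∀ t, (ap t).length = t) (i b : ℕ)
    (hb : si i ≤ b) : (lab ap i b).length = mi i := by
  unfold lab
  rw [List.length_take, hap]
  apply min_eq_left
  rw [Nat.le_div_iff_mul_le (by positivity)]
  unfold si at hb
  rw [mul_comm]
  exact hb

theorem part1 (hC : StmCNT) (hN : StmNUM) (ap : ℕ → List Bool) (hap : ∀ t, (ap t).length = t)
    (B : ℕ → Bool) (i : ℕ) (S : Finset (List Bool)) (hS : ∀ x ∈ S, P1 ap B (i, x)) :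
    S.card ≤ 2 ^ (li i - 16 * i) := by
  classical
  rcases S.eq_empty_or_nonempty with rfl | ⟨x₀, hx₀⟩
  · simp
  have hex : ∃ s, 2 ^ ri i ≤ (fv ap i (pre B s)).length := by
    obtain ⟨_, s, hs, _⟩ := hS x₀ hx₀
    exact ⟨s, hs⟩
  set s := Nat.find hex with hsdef
  have hs : 2 ^ ri i ≤ (fv ap i (pre B s)).length := Nat.find_spec hex
  have hok : ∀ x ∈ S, ∀ b < s, B b = true → si i ≤ b → Ok ap i b x := by
    intro x hx b hb hB hsi
    obtain ⟨_, t, ht, ht'⟩ := hS x hx
    have hst : s ≤ t := Nat.find_min' hex ht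
    exact ht' b (hb.trans_le hst) hB hsi
  set E : Finset (List Bool × ℕ) :=
    ((Finset.range s).filter (fun b => B b = true ∧ si i ≤ b)).image (fun b => (lab ap i b, b))
    with hE
  have hE1 : ∀ e ∈ E, e.1.length = mi i := by
    intro e he
    rw [hE, Finset.mem_image] at he
    obtain ⟨b, hb, rfl⟩ := he
    rw [Finset.mem_filter] at hb
    exact lab_length ap hap i b hb.2.2
  have hE2 : 2 ^ ri i ≤ (E.image Prod.fst).card := by
    rw [length_fv] at hs
    refine hs.trans ?_
    rw [← Finset.card_image_of_injOn (s := (Finset.range s).filter (New ap B i))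
      (f := fun b => lab ap i b)]
    · apply Finset.card_le_card
      intro v hv
      rw [Finset.mem_image] at hv
      obtain ⟨b, hb, rfl⟩ := hv
      rw [Finset.mem_filter] at hb
      rw [Finset.mem_image]
      refine ⟨(lab ap i b, b), ?_, rfl⟩
      rw [hE, Finset.mem_image]
      exact ⟨b, Finset.mem_filter.mpr ⟨hb.1, hb.2.1, hb.2.2.1⟩, rfl⟩
    · intro b hb c hc hbc
      have hb' : New ap B i b := (Finset.mem_filter.mp (Finset.mem_coe.mp hb)).2
      have hc' : New ap B i c := (Finset.mem_filter.mp (Finset.mem_coe.mp hc)).2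
      have hbc' : lab ap i b = lab ap i c := hbc
      rcases lt_trichotomy b c with h | h | h
      · exact absurd hbc' (hc'.2.2 b h hb'.1 hb'.2.1)
      · exact h
      · exact absurd hbc'.symm (hb'.2.2 c h hc'.1 hc'.2.1)
  have h1 := hC (mi i) (wi i) (ri i) E hE1 hE2 S (by
    intro x hx
    refine ⟨(hS x hx).1, ?_⟩
    intro e he
    rw [hE, Finset.mem_image] at he
    obtain ⟨b, hb, rfl⟩ := he
    rw [Finset.mem_filter, Finset.mem_range] at hb
    exact hok x hx b hb.1 hb.2.1 hb.2.2)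
  have h2 := hN i
  have hM : 0 < (2 ^ wi i) ^ ri i := by positivity
  have h3 : S.card * 2 ^ (16 * i) ≤ 2 ^ li i := by
    have h4 : (2 ^ wi i) ^ ri i * (S.card * 2 ^ (16 * i)) ≤ (2 ^ wi i) ^ ri i * 2 ^ li i := by
      calc (2 ^ wi i) ^ ri i * (S.card * 2 ^ (16 * i))
          = S.card * (2 ^ wi i) ^ ri i * 2 ^ (16 * i) := by ring
        _ ≤ (2 ^ wi i - 1) ^ ri i * 2 ^ (mi i * wi i) * 2 ^ (16 * i) :=
            Nat.mul_le_mul_right _ h1
        _ = (2 ^ wi i - 1) ^ ri i * 2 ^ (16 * i) * 2 ^ li i := by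
            unfold li
            ring
        _ ≤ (2 ^ wi i) ^ ri i * 2 ^ li i := Nat.mul_le_mul_right _ h2
    exact Nat.le_of_mul_le_mul_left h4 hM
  have h5 : 2 ^ li i = 2 ^ (li i - 16 * i) * 2 ^ (16 * i) := by
    rw [← pow_add, Nat.sub_add_cancel (li_ge i)]
  rw [h5] at h3
  exact Nat.le_of_mul_le_mul_right h3 (by positivity)

theorem part2 (ap : ℕ → List Bool) (B : ℕ → Bool) (i : ℕ) (S : Finset (List Bool))
    (hS : ∀ x ∈ S, P2 ap B (i, x)) : S.card ≤ 2 ^ ri i := by
  classical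
  have hex : ∀ v ∈ S, ∃ b, B b = true ∧ si i ≤ b ∧ lab ap i b = v := by
    intro v hv
    obtain ⟨b, h1, h2, h3, _⟩ := hS v hv
    exact ⟨b, h1, h2, h3⟩
  have hmin : ∀ v ∈ S, ∃ b, New ap B i b ∧ lab ap i b = v ∧
      (fv ap i (pre B b)).length < 2 ^ ri i := by
    intro v hv
    obtain ⟨h1, h2, h3⟩ := Nat.find_spec (hex v hv)
    refine ⟨Nat.find (hex v hv), ⟨h1, h2, ?_⟩, h3, ?_⟩
    · intro b' hb' h4 h5 h6
      exact Nat.find_min (hex v hv) hb' ⟨h4, h5, h6.trans h3⟩
    · obtain ⟨b, g1, g2, g3, g4⟩ := hS v hv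
      exact lt_of_le_of_lt (length_mono ap B i (Nat.find_min' (hex v hv) ⟨g1, g2, g3⟩)) g4
  choose! β hβ1 hβ2 hβ3 using hmin
  have hle := Finset.card_le_card_of_injOn (s := S) (t := Finset.range (2 ^ ri i))
    (fun v => (fv ap i (pre B (β v))).length)
    (fun v hv => Finset.mem_coe.mpr (Finset.mem_range.mpr (hβ3 v hv)))
    (by
      intro v hv w hw hvw
      have hvw' : (fv ap i (pre B (β v))).length = (fv ap i (pre B (β w))).length := hvw
      rcases lt_trichotomy (β v) (β w) with h | h | h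
      · exact absurd hvw' (length_lt ap B i h (hβ1 v hv)).ne
      · rw [← hβ2 v hv, ← hβ2 w hw, h]
      · exact absurd hvw' (length_lt ap B i h (hβ1 w hw)).ne')
  rwa [Finset.card_range] at hle

end ModCRD

theorem crd : (StmCNT → StmNUM → StmCRD) := by
  intro hC hN ap hap B
  exact ⟨fun i S hS => ModCRD.part1 hC hN ap hap B i S hS,
    fun i S hS => ModCRD.part2 ap B i S hS⟩

end Pool.Agent.T6.H92.CB
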