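import Pool.Agent.Helper227.RD.SI

/-!
Project CB (MP_fa2eca_lc): a set `A` of lower density at least `1/2` all of whose infinite subsets
compress the initial segments of `X`. Definitions and module statements.
-/

set_option autoImplicit false

namespace Pool.Agent.T6.H92.CB

open Pool.Agent.Helper227 (chi pre SI S1)

/-- `U` is an optimal machine: a partial computable function from strings to strings such that
every partial computable function has at most constantly shorter descriptions. -/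
def IsOpt (U : List Bool →. List Bool) : Prop :=
  Partrec U ∧ ∀ M : List Bool →. List Bool, Partrec M → ∃ c : ℕ, ∀ τ y : List Bool,
    y ∈ M τ → ∃ τ' : List Bool, τ'.length ≤ τ.length + c ∧ y ∈ U τ'

/-- `U` is an optimal machine relative to the oracle `B`. -/
def IsOptIn (B : ℕ → Bool) (U : List Bool →. List Bool) : Prop :=
  RecursiveIn {chi B} U ∧ ∀ M : List Bool →. List Bool, RecursiveIn {chi B} M →
    ∃ c : ℕ, ∀ τ y : List Bool, y ∈ M τ → ∃ τ' : List Bool, τ'.length ≤ τ.length + c ∧ y ∈ U τ'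

/-- plain Kolmogorov complexity with respect to the machine `U` -/
noncomputable def CU (U : List Bool →. List Bool) (y : List Bool) : ℕ :=
  sInf {n | ∃ τ : List Bool, τ.length = n ∧ y ∈ U τ}

/-- the string `1^i 0` -/
def hd (i : ℕ) : List Bool := List.replicate i true ++ [false]

/-- the parity of the number of `j < m` with `v j = 1` and `x (q m + j) = 1`: the scalar product
over `F₂` of `v` and row `q` of `x` (rows of length `m`) -/
def ipar (m q : ℕ) (v x : List Bool) : Bool :=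
  decide ((((List.range m).filter (fun j => v.getD j false && x.getD (q * m + j) false)).length) % 2
    = 1)

/-- parameters of level `i`: the number of rows, the length of the labels, the first active
number, the logarithm of the threshold, the length of the strings -/
def wi (i : ℕ) : ℕ := i + 3
def mi (i : ℕ) : ℕ := 8 ^ i
def si (i : ℕ) : ℕ := 2 ^ wi i * mi i
def ri (i : ℕ) : ℕ := 16 * i * 2 ^ wi i
def li (i : ℕ) : ℕ := mi i * wi i

/-- the label of the number `b` on level `i` -/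
def lab (ap : ℕ → List Bool) (i b : ℕ) : List Bool := (ap (b / 2 ^ wi i)).take (mi i)

/-- the numbers `b < |α|` in (the set with initial segment) `α`, active on level `i`, whose label
is new -/
def fv (ap : ℕ → List Bool) (i : ℕ) (α : List Bool) : List ℕ :=
  (List.range α.length).filter (fun b => decide (α.getD b false = true ∧ si i ≤ b ∧
    ∀ b' < b, α.getD b' false = true → si i ≤ b' → lab ap i b' ≠ lab ap i b))

/-- the string `x` satisfies the constraint of the number `b` on level `i` -/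
def Ok (ap : ℕ → List Bool) (i b : ℕ) (x : List Bool) : Prop :=
  ∃ q < wi i, b.testBit q ≠ ipar (mi i) q (lab ap i b) x

/-- the candidates if there are many labels -/
def P1 (ap : ℕ → List Bool) (B : ℕ → Bool) (y : ℕ × List Bool) : Prop :=
  y.2.length = li y.1 ∧ ∃ s, 2 ^ ri y.1 ≤ (fv ap y.1 (pre B s)).length ∧
    ∀ b < s, B b = true → si y.1 ≤ b → Ok ap y.1 b y.2

/-- the candidates if there are few labels -/
def P2 (ap : ℕ → List Bool) (B : ℕ → Bool) (y : ℕ × List Bool) : Prop :=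
  ∃ b, B b = true ∧ si y.1 ≤ b ∧ lab ap y.1 b = y.2 ∧ (fv ap y.1 (pre B b)).length < 2 ^ ri y.1

/-- module SMALL -/
def StmSMALL : Prop := ∀ (B : ℕ → Bool) (P : ℕ × List Bool → Prop), SI B P →
  ∀ k : ℕ → ℕ, Primrec k →
  (∀ (i : ℕ) (S : Finset (List Bool)), (∀ x ∈ S, P (i, x)) → S.card ≤ 2 ^ k i) →
  ∃ M : List Bool →. List Bool, RecursiveIn {chi B} M ∧ ∀ (i : ℕ) (x : List Bool), P (i, x) →
    ∃ z : List Bool, z.length = k i ∧ ∀ rest : List Bool, x ++ rest ∈ M (hd i ++ z ++ rest)

/-- module RAND -/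
def StmRAND : Prop := ∃ ap : ℕ → List Bool, Primrec ap ∧ (∀ t, (ap t).length = t) ∧
  ∃ X : ℕ → Bool, (∀ m, ∃ T, ∀ t, T ≤ t → (ap t).take m = pre X m) ∧
    ∀ U : List Bool →. List Bool, Partrec U → ∃ c : ℕ, ∀ (n : ℕ) (τ : List Bool),
      pre X n ∈ U τ → n ≤ τ.length + 2 * Nat.log 2 (n + 1) + c

/-- module SIA -/
def StmSIA : Prop := ∀ ap : ℕ → List Bool, Primrec ap → ∀ B : ℕ → Bool, SI B (P1 ap B)

/-- module SIB -/
def StmSIB : Prop := ∀ ap : ℕ → List Bool, Primrec ap → ∀ B : ℕ → Bool, SI B (P2 ap B)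

/-- module CNT -/
def StmCNT : Prop := ∀ (m w ρ : ℕ) (E : Finset (List Bool × ℕ)), (∀ e ∈ E, e.1.length = m) →
  2 ^ ρ ≤ (E.image Prod.fst).card → ∀ S : Finset (List Bool),
  (∀ x ∈ S, x.length = m * w ∧ ∀ e ∈ E, ∃ q < w, e.2.testBit q ≠ ipar m q e.1 x) →
  S.card * (2 ^ w) ^ ρ ≤ (2 ^ w - 1) ^ ρ * 2 ^ (m * w)

/-- module NUM -/
def StmNUM : Prop := ∀ i : ℕ, (2 ^ wi i - 1) ^ ri i * 2 ^ (16 * i) ≤ (2 ^ wi i) ^ ri i

/-- module CRD: the number of candidates -/
def StmCRD : Prop := ∀ ap : ℕ → List Bool, (∀ t, (ap t).length = t) → ∀ B : ℕ → Bool,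
  (∀ (i : ℕ) (S : Finset (List Bool)), (∀ x ∈ S, P1 ap B (i, x)) → S.card ≤ 2 ^ (li i - 16 * i)) ∧
  ∀ (i : ℕ) (S : Finset (List Bool)), (∀ x ∈ S, P2 ap B (i, x)) → S.card ≤ 2 ^ ri i

open Classical in
/-- the set `A` -/
noncomputable def setA (ap : ℕ → List Bool) (X : ℕ → Bool) : ℕ → Bool :=
  fun b => decide (∀ i, si i ≤ b → Ok ap i b (pre X (li i)))

/-- module DENS -/
def StmDENS : Prop := ∀ (ap : ℕ → List Bool) (X : ℕ → Bool) (n : ℕ),
  n ≤ 2 * ((Finset.range n).filter (fun b => setA ap X b = true)).card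

/-- module OPT: optimal machines exist -/
def StmOPT : Prop := (∃ U, IsOpt U) ∧ ∀ B : ℕ → Bool, ∃ U, IsOptIn B U

/-- module FIN: the two compressions -/
def StmFIN : Prop := StmSMALL → StmRAND → StmSIA → StmSIB → StmCRD → StmDENS →
  ∃ X A : ℕ → Bool, (∀ n : ℕ, n ≤ 2 * ((Finset.range n).filter (fun b => A b = true)).card) ∧
    ∀ U, IsOpt U → ∀ B : ℕ → Bool, (∀ n, B n = true → A n = true) → {n | B n = true}.Infinite →
      ∀ V, IsOptIn B V → ∀ c : ℕ, ∃ n₀, ∀ n, n₀ ≤ n → CU V (pre X n) + c < CU U (pre X n)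

end Pool.Agent.T6.H92.CB
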