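import Mathlib
import Pool.Agent.T6.H92.CB.Defs

/-!
Project CB, module DENS: the set `A` has lower density at least `1/2`.
-/

set_option autoImplicit false

namespace Pool.Agent.T6.H92.CB

open Pool.Agent.Helper227 (pre)

namespace ModDENS

theorem sum_le (n : ℕ) : ∀ m : ℕ,
    ∑ i ∈ Finset.range m, n / 2 ^ (i + 3) + n / 2 ^ (m + 2) ≤ n / 4
  | 0 => by simp
  | m + 1 => by
    rw [Finset.sum_range_succ]
    have h := sum_le n m
    have h2 : n / 2 ^ (m + 1 + 2) = n / 2 ^ (m + 2) / 2 := by
      rw [Nat.div_div_eq_div_mul, ← pow_succ]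
    rw [h2]
    omega

open Classical in
theorem card_bad (ap : ℕ → List Bool) (X : ℕ → Bool) (n i : ℕ) :
    ((Finset.range n).filter (fun b => si i ≤ b ∧ ¬ Ok ap i b (pre X (li i)))).card ≤
      n / 2 ^ (i + 3) := by
  have hinj : Set.InjOn (fun b : ℕ => b / 2 ^ (i + 3)) (((Finset.range n).filter
      (fun b => si i ≤ b ∧ ¬ Ok ap i b (pre X (li i))) : Finset ℕ) : Set ℕ) := by
    intro b hb b' hb' h
    have h1 : ¬ Ok ap i b (pre X (li i)) := (Finset.mem_filter.1 (Finset.mem_coe.1 hb)).2.2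
    have h2 : ¬ Ok ap i b' (pre X (li i)) := (Finset.mem_filter.1 (Finset.mem_coe.1 hb')).2.2
    have h' : b / 2 ^ (i + 3) = b' / 2 ^ (i + 3) := h
    have hlab : lab ap i b = lab ap i b' := by
      unfold lab wi
      rw [h']
    simp only [Ok, not_exists, not_and, not_not] at h1 h2
    apply Nat.eq_of_testBit_eq
    intro q
    by_cases hq : q < wi i
    · rw [h1 q hq, h2 q hq, hlab]
    · have hq' : i + 3 ≤ q := by unfold wi at hq; omega
      obtain ⟨r, rfl⟩ := Nat.exists_eq_add_of_le hq'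
      rw [Nat.add_comm (i + 3) r, ← Nat.testBit_div_two_pow, ← Nat.testBit_div_two_pow, h']
  rw [← Finset.card_image_of_injOn hinj]
  refine (Finset.card_le_card (t := Finset.Icc 1 (n / 2 ^ (i + 3))) ?_).trans (by simp)
  intro t ht
  obtain ⟨b, hb, rfl⟩ := Finset.mem_image.1 ht
  obtain ⟨hb1, hb2, -⟩ := Finset.mem_filter.1 hb
  rw [Finset.mem_Icc]
  refine ⟨?_, Nat.div_le_div_right (Finset.mem_range.1 hb1).le⟩
  rw [Nat.one_le_div_iff (by positivity)]
  refine le_trans ?_ hb2
  unfold si wi mi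
  exact Nat.le_mul_of_pos_right _ (by positivity)

end ModDENS

open ModDENS in
theorem dens : StmDENS := by
  classical
  intro ap X n
  have h1 : (Finset.range n).filter (fun b => ¬ setA ap X b = true) ⊆
      (Finset.range n).biUnion (fun i => (Finset.range n).filter
        (fun b => si i ≤ b ∧ ¬ Ok ap i b (pre X (li i)))) := by
    intro b hb
    obtain ⟨hb1, hb2⟩ := Finset.mem_filter.1 hb
    simp only [setA, decide_eq_true_eq, not_forall] at hb2
    obtain ⟨i, hi, hOk⟩ := hb2
    rw [Finset.mem_biUnion]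
    refine ⟨i, ?_, Finset.mem_filter.2 ⟨hb1, hi, hOk⟩⟩
    rw [Finset.mem_range] at hb1 ⊢
    refine lt_of_le_of_lt ?_ (lt_of_le_of_lt hi hb1)
    unfold si wi mi
    calc i ≤ 2 ^ i := Nat.lt_two_pow_self.le
      _ ≤ 2 ^ (i + 3) := Nat.pow_le_pow_right (by norm_num) (by omega)
      _ ≤ 2 ^ (i + 3) * 8 ^ i := Nat.le_mul_of_pos_right _ (by positivity)
  have h2 : ((Finset.range n).filter (fun b => ¬ setA ap X b = true)).card ≤ n / 4 := by
    refine (Finset.card_le_card h1).trans (Finset.card_biUnion_le.trans ?_)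
    refine (Finset.sum_le_sum fun i _ => card_bad ap X n i).trans ?_
    exact (Nat.le_add_right _ _).trans (sum_le n n)
  have h3 := Finset.card_filter_add_card_filter_not (s := Finset.range n)
    (fun b => setA ap X b = true)
  rw [Finset.card_range] at h3
  omega

end Pool.Agent.T6.H92.CB
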