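import Pool.Agent.T6.H92.CB.Defs

/-!
Project CB, module NUM.
-/

set_option autoImplicit false

namespace Pool.Agent.T6.H92.CB

namespace ModNUM

theorem bern (N k : ℕ) : N ^ k * (N + k) ≤ (N + 1) ^ k * N := by
  induction k with
  | zero => simp
  | succ k ih =>
    calc N ^ (k + 1) * (N + (k + 1)) ≤ (N ^ k * (N + k)) * (N + 1) := by
          have h : N ^ (k + 1) * (N + (k + 1)) + N ^ k * k = (N ^ k * (N + k)) * (N + 1) := by ring
          omega
      _ ≤ ((N + 1) ^ k * N) * (N + 1) := Nat.mul_le_mul_right _ ih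
      _ = (N + 1) ^ (k + 1) * N := by ring

theorem base (N : ℕ) (hN : 0 < N) : N ^ (N + 1) * 2 ≤ (N + 1) ^ (N + 1) := by
  have h := bern N (N + 1)
  have h2 : (N ^ (N + 1) * 2) * N ≤ (N + 1) ^ (N + 1) * N := by
    refine le_trans ?_ h
    have : (N ^ (N + 1) * 2) * N + N ^ (N + 1) = N ^ (N + 1) * (N + (N + 1)) := by ring
    omega
  exact Nat.le_of_mul_le_mul_right h2 hN

end ModNUM

theorem num : StmNUM := by
  intro i
  have hM : 2 ≤ 2 ^ wi i := by
    unfold wi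
    calc 2 = 2 ^ 1 := by norm_num
      _ ≤ 2 ^ (i + 3) := Nat.pow_le_pow_right (by norm_num) (by omega)
  unfold ri
  generalize 2 ^ wi i = M at hM ⊢
  obtain ⟨N, rfl⟩ : ∃ N, M = N + 1 := ⟨M - 1, by omega⟩
  have hb := ModNUM.base N (by omega)
  rw [Nat.add_sub_cancel]
  calc N ^ (16 * i * (N + 1)) * 2 ^ (16 * i) = (N ^ (N + 1) * 2) ^ (16 * i) := by
        rw [mul_pow, ← pow_mul, mul_comm (N + 1) (16 * i)]
    _ ≤ ((N + 1) ^ (N + 1)) ^ (16 * i) := Nat.pow_le_pow_left hb _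
    _ = (N + 1) ^ (16 * i * (N + 1)) := by rw [← pow_mul, mul_comm (N + 1) (16 * i)]

end Pool.Agent.T6.H92.CB
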