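import Pool.Agent.T6.H92.CB.Defs
import Pool.Agent.Helper227.RD.RMach

/-! Project CB, module OPT: optimal machines exist, also relative to an oracle. -/

set_option autoImplicit false

namespace Pool.Agent.T6.H92.CB

open Pool.Agent.Helper227 (chi pre SI S1 PL En mem_PL PL_mono primrec_PL partOf mem_partOf
  hd_prefix hd_length primrec_hd recIn_graph' recIn_of_graph' pre_prefix length_pre take_pre)
open Encodable
open Nat.Partrec (Code)

namespace ModOPT

/-- the list of pairs is single valued -/
def FL (L : List (List Bool × List Bool)) : Prop := ∀ p ∈ L, ∀ q ∈ L, p.1 = q.1 → p = q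

theorem primrec_FL : PrimrecPred FL := by
  refine Pool.Agent.Helper227.PP.all_mem (α := List (List Bool × List Bool)) (f := fun L => L)
    (p := fun L p => ∀ q ∈ L, p.1 = q.1 → p = q) ?_ Primrec.id
  refine Pool.Agent.Helper227.PP.all_mem (α := List (List Bool × List Bool) × (List Bool × List Bool)) (f := fun x => x.1)
    (p := fun x q => x.2.1 = q.1 → x.2 = q) ?_ Primrec.fst
  have h1 : PrimrecPred fun z : (List (List Bool × List Bool) × (List Bool × List Bool)) ×
      (List Bool × List Bool) => ¬ (z.1.2.1 = z.2.1) ∨ z.1.2 = z.2 := by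
    refine PrimrecPred.or (PrimrecPred.not ?_) ?_
    · exact Primrec.eq.comp (Primrec.fst.comp (Primrec.snd.comp Primrec.fst))
        (Primrec.fst.comp Primrec.snd)
    · exact Primrec.eq.comp (Primrec.snd.comp Primrec.fst) Primrec.snd
  exact h1.of_eq fun z => by
    constructor
    · rintro (h | h) h2
      · exact absurd h2 h
      · exact h
    · intro h
      by_cases h2 : z.1.2.1 = z.2.1
      · exact Or.inr (h h2)
      · exact Or.inl h2

/-- graph of the optimal machine -/
def GO (A : ℕ → Bool) (ρ y : List Bool) : Prop :=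
  ∃ s : ℕ, ∃ c : Code, ∃ τ : List Bool, ρ = Helper227.hd (encode c) ++ τ ∧
    (τ, y) ∈ PL c (pre A s) ∧ FL (PL c (pre A s))

theorem GO_sv {A : ℕ → Bool} {ρ y y' : List Bool} (h : GO A ρ y) (h' : GO A ρ y') : y = y' := by
  obtain ⟨s, c, τ, rfl, h1, h2⟩ := h
  obtain ⟨s', c', τ', he, h1', h2'⟩ := h'
  have hp : Helper227.hd (encode c) ++ τ <+: Helper227.hd (encode c') ++ τ' := by rw [he]
  have hp2 : Helper227.hd (encode c') ++ τ' <+: Helper227.hd (encode c) ++ τ := by rw [he]
  obtain ⟨hn, hq⟩ := hd_prefix hp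
  obtain ⟨_, hq2⟩ := hd_prefix hp2
  have hc : c = c' := Encodable.encode_injective hn
  subst hc
  have ht : τ = τ' := hq.eq_of_length (le_antisymm hq.length_le hq2.length_le)
  subst ht
  have h3 : (τ, y) = (τ, y') := by
    rcases Nat.le_total s s' with h | h
    · exact h2' _ (PL_mono (pre_prefix A h) h1) _ h1' rfl
    · exact h2 _ h1 _ (PL_mono (pre_prefix A h) h1') rfl
  exact (Prod.mk.inj h3).2

/-- an optimal machine relative to `A` -/
noncomputable def opU (A : ℕ → Bool) : List Bool →. List Bool := partOf (GO A)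

theorem mem_opU {A : ℕ → Bool} {ρ y : List Bool} : y ∈ opU A ρ ↔ GO A ρ y :=
  mem_partOf fun _ _ h h' => GO_sv h h'

theorem isOptIn_opU (A : ℕ → Bool) : IsOptIn A (opU A) := by
  refine ⟨?_, ?_⟩
  · refine recIn_of_graph' (G := fun x : List Bool × List Bool × List Bool =>
      ∃ c : Code, ∃ τ : List Bool, x.2.1 = Helper227.hd (encode c) ++ τ ∧ (τ, x.2.2) ∈ PL c x.1 ∧
        FL (PL c x.1)) ?_ fun ρ y => mem_opU
    refine S1.ex (S1.ex (S1.of_prim (PrimrecPred.and ?_ (PrimrecPred.and ?_ ?_))))
    · refine Primrec.eq.comp (Primrec.fst.comp (Primrec.snd.comp (Primrec.fst.comp Primrec.fst))) ?_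
      exact Primrec.list_append.comp (primrec_hd.comp (Primrec.encode.comp
        (Primrec.snd.comp Primrec.fst))) Primrec.snd
    · have hL : Primrec fun z : ((List Bool × List Bool × List Bool) × Code) × List Bool =>
          PL z.1.2 z.1.1.1 :=
        primrec_PL.comp ((Primrec.snd.comp Primrec.fst).pair
          (Primrec.fst.comp (Primrec.fst.comp Primrec.fst)))
      refine (Pool.Agent.Helper227.PP.ex_mem (p := fun (z : ((List Bool × List Bool × List Bool) × Code) × List Bool) q =>
        q = (z.2, z.1.1.2.2)) ?_ hL).of_eq fun z => by simp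
      exact Primrec.eq.comp Primrec.snd ((Primrec.snd.comp Primrec.fst).pair
        (Primrec.snd.comp (Primrec.snd.comp (Primrec.fst.comp (Primrec.fst.comp Primrec.fst)))))
    · exact primrec_FL.comp (primrec_PL.comp ((Primrec.snd.comp Primrec.fst).pair
          (Primrec.fst.comp (Primrec.fst.comp Primrec.fst))))
  · intro M hM
    obtain ⟨G, hG, mG, eG⟩ := recIn_graph' hM
    obtain ⟨c, hc⟩ := Nat.Partrec.Code.exists_code.1 hG.re
    have h1 : ∀ x, (c.eval (encode x)).Dom ↔ G x := by
      intro x
      rw [hc]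
      simp [Part.assert]
    refine ⟨encode c + 1, fun τ y hy => ⟨Helper227.hd (encode c) ++ τ, ?_, ?_⟩⟩
    · rw [List.length_append, hd_length]; omega
    · rw [mem_opU]
      obtain ⟨s, hs⟩ := (eG _ _).1 hy
      obtain ⟨v, hv⟩ := Part.dom_iff_mem.1 ((h1 _).2 hs)
      obtain ⟨k, hk⟩ := Nat.Partrec.Code.evaln_complete.1 hv
      have hsound : ∀ t : ℕ, ∀ p ∈ PL c (pre A t), p.2 ∈ M p.1 := by
        intro t p hp
        obtain ⟨_, j, hj, h2⟩ := mem_PL.1 hp
        obtain ⟨v, hv⟩ := Option.isSome_iff_exists.1 h2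
        have h3 := Part.dom_iff_mem.2 ⟨v, Nat.Partrec.Code.evaln_sound hv⟩
        rw [h1] at h3
        rw [length_pre] at hj
        rw [take_pre A _ _ (by omega)] at h3
        exact (eG _ _).2 ⟨j, h3⟩
      refine ⟨max s (max k (encode (τ, y) + 1)), c, τ, rfl, ?_, ?_⟩
      · rw [mem_PL, length_pre]
        refine ⟨by omega, s, by rw [length_pre]; omega, ?_⟩
        rw [length_pre, take_pre A _ _ (le_max_left _ _)]
        exact Option.isSome_iff_exists.2 ⟨v, Nat.Partrec.Code.evaln_mono
          ((le_max_left _ _).trans (le_max_right _ _)) hk⟩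
      · intro p hp q hq he
        have hp2 := hsound _ p hp
        have hq2 := hsound _ q hq
        refine Prod.ext he ?_
        rw [he] at hp2
        exact Part.mem_unique hp2 hq2

/-- `RecursiveIn` the empty oracle is `Partrec` -/
theorem partrec_of_recIn_const {f : List Bool →. List Bool}
    (h : RecursiveIn {chi (fun _ => false)} f) : Partrec f := by
  refine Nat.RecursiveIn.partrec_of_oracle ?_ h
  intro g hg
  rw [Set.mem_singleton_iff] at hg
  subst hg
  exact Nat.Partrec.zero.of_eq fun n => rfl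

end ModOPT

theorem opt : StmOPT := by
  refine ⟨⟨ModOPT.opU (fun _ => false), ?_, fun M hM => ?_⟩, fun B => ⟨_, ModOPT.isOptIn_opU B⟩⟩
  · exact ModOPT.partrec_of_recIn_const (ModOPT.isOptIn_opU _).1
  · exact (ModOPT.isOptIn_opU _).2 M (Partrec.recursiveIn hM)

end Pool.Agent.T6.H92.CB
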