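import Pool.Agent.T6.H92.CB.Defs3
import Pool.Agent.T6.H92.CB.Opt

/-!
Project CB: there is an optimal oracle machine.
-/

set_option autoImplicit false

namespace Pool.Agent.T6.H92.CB

open Pool.Agent.Helper227 (chi pre SI S1 PL En mem_PL PL_mono primrec_PL partOf mem_partOf
  hd_prefix hd_length primrec_hd pre_prefix length_pre take_pre)
open Encodable
open Nat.Partrec (Code)

namespace ModOPO

open ModOPT

/-- the axioms of the optimal oracle machine -/
def GG (x : List Bool × List Bool × List Bool) : Prop :=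
  ∃ s : ℕ, ∃ c : Code, ∃ τ : List Bool, s ≤ x.1.length ∧ x.2.1 = Helper227.hd (encode c) ++ τ ∧
    (τ, x.2.2) ∈ PL c (x.1.take s) ∧ FL (PL c (x.1.take s))

theorem s1_GG : S1 GG := by
  refine S1.ex (S1.ex (S1.ex (S1.of_prim (PrimrecPred.and ?_ (PrimrecPred.and ?_
    (PrimrecPred.and ?_ ?_))))))
  · exact Primrec.nat_le.comp (Primrec.snd.comp (Primrec.fst.comp Primrec.fst))
      (Primrec.list_length.comp (Primrec.fst.comp (Primrec.fst.comp (Primrec.fst.comp Primrec.fst))))
  · refine Primrec.eq.comp (Primrec.fst.comp (Primrec.snd.comp (Primrec.fst.comp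
      (Primrec.fst.comp Primrec.fst)))) ?_
    exact Primrec.list_append.comp (primrec_hd.comp (Primrec.encode.comp
      (Primrec.snd.comp Primrec.fst))) Primrec.snd
  · have hL : Primrec fun z : (((List Bool × List Bool × List Bool) × ℕ) × Code) × List Bool =>
        PL z.1.2 (z.1.1.1.1.take z.1.1.2) :=
      primrec_PL.comp ((Primrec.snd.comp Primrec.fst).pair
        (Primrec.list_take.comp (Primrec.snd.comp (Primrec.fst.comp Primrec.fst))
          (Primrec.fst.comp (Primrec.fst.comp (Primrec.fst.comp Primrec.fst)))))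
    refine (Pool.Agent.Helper227.PP.ex_mem
      (p := fun (z : (((List Bool × List Bool × List Bool) × ℕ) × Code) × List Bool) q =>
        q = (z.2, z.1.1.1.2.2)) ?_ hL).of_eq fun z => by simp
    exact Primrec.eq.comp Primrec.snd ((Primrec.snd.comp Primrec.fst).pair
      (Primrec.snd.comp (Primrec.snd.comp (Primrec.fst.comp (Primrec.fst.comp
        (Primrec.fst.comp Primrec.fst))))))
  · exact primrec_FL.comp (primrec_PL.comp ((Primrec.snd.comp Primrec.fst).pair
      (Primrec.list_take.comp (Primrec.snd.comp (Primrec.fst.comp Primrec.fst))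
          (Primrec.fst.comp (Primrec.fst.comp (Primrec.fst.comp Primrec.fst))))))

theorem GG_mono {σ σ' τ y : List Bool} (h : σ <+: σ') (hG : GG (σ, τ, y)) : GG (σ', τ, y) := by
  obtain ⟨s, c, τ', h1, h2, h3, h4⟩ := hG
  obtain ⟨ρ, rfl⟩ := h
  have h5 : (σ ++ ρ).take s = σ.take s := List.take_append_of_le_length h1
  refine ⟨s, c, τ', ?_, h2, ?_, ?_⟩
  · simp only [List.length_append] at h1 ⊢; omega
  · simp only [h5]; exact h3
  · simp only [h5]; exact h4

theorem mem_iff (B : ℕ → Bool) (τ y : List Bool) : y ∈ opU B τ ↔ ∃ s, GG (pre B s, τ, y) := by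
  rw [mem_opU]
  constructor
  · rintro ⟨s, c, τ', h1, h2, h3⟩
    have h5 : (pre B s).take s = pre B s := take_pre B _ _ le_rfl
    refine ⟨s, s, c, τ', by simp [length_pre], h1, ?_, ?_⟩
    · simp only [h5]; exact h2
    · simp only [h5]; exact h3
  · rintro ⟨t, s, c, τ', h0, h1, h2, h3⟩
    simp only [length_pre] at h0
    have h5 : (pre B t).take s = pre B s := take_pre B _ _ h0
    simp only [h5] at h2 h3
    exact ⟨s, c, τ', h1, h2, h3⟩

theorem isOM_opU : IsOM opU := ⟨GG, s1_GG.re, fun _ _ _ _ h hG => GG_mono h hG, mem_iff⟩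

theorem isOptOM_opU : IsOptOM opU := by
  refine ⟨isOM_opU, fun M hM => ?_⟩
  obtain ⟨G, hG, mG, eG⟩ := hM
  obtain ⟨c, hc⟩ := Nat.Partrec.Code.exists_code.1 hG
  have h1 : ∀ x, (c.eval (encode x)).Dom ↔ G x := by
    intro x
    rw [hc]
    simp [Part.assert]
  refine ⟨encode c + 1, fun B τ y hy => ⟨Helper227.hd (encode c) ++ τ, ?_, ?_⟩⟩
  · rw [List.length_append, hd_length]; omega
  · rw [mem_opU]
    obtain ⟨s, hs⟩ := (eG _ _ _).1 hy
    obtain ⟨v, hv⟩ := Part.dom_iff_mem.1 ((h1 _).2 hs)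
    obtain ⟨k, hk⟩ := Nat.Partrec.Code.evaln_complete.1 hv
    have hsound : ∀ t : ℕ, ∀ p ∈ PL c (pre B t), p.2 ∈ M B p.1 := by
      intro t p hp
      obtain ⟨_, j, hj, h2⟩ := mem_PL.1 hp
      obtain ⟨v, hv⟩ := Option.isSome_iff_exists.1 h2
      have h3 := Part.dom_iff_mem.2 ⟨v, Nat.Partrec.Code.evaln_sound hv⟩
      rw [h1] at h3
      rw [length_pre] at hj
      rw [take_pre B _ _ (by omega)] at h3
      exact (eG _ _ _).2 ⟨j, h3⟩
    refine ⟨max s (max k (encode (τ, y) + 1)), c, τ, rfl, ?_, ?_⟩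
    · rw [mem_PL, length_pre]
      refine ⟨by omega, s, by rw [length_pre]; omega, ?_⟩
      rw [length_pre, take_pre B _ _ (le_max_left _ _)]
      exact Option.isSome_iff_exists.2 ⟨v, Nat.Partrec.Code.evaln_mono
        ((le_max_left _ _).trans (le_max_right _ _)) hk⟩
    · intro p hp q hq he
      have hp2 := hsound _ p hp
      have hq2 := hsound _ q hq
      refine Prod.ext he ?_
      rw [he] at hp2
      exact Part.mem_unique hp2 hq2

end ModOPO

theorem opo : StmOPO := ⟨ModOPT.opU, ModOPO.isOptOM_opU⟩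

end Pool.Agent.T6.H92.CB
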