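import Pool.Agent.T6.H92.CB.Defs3

set_option autoImplicit false

namespace Pool.Agent.T6.H92.CB

open Pool.Agent.Helper227 (chi pre SI S1 PP.ex_mem PP.all_mem PP.ex_lt PP.all_lt recIn_of_graph'
  recIn_graph' take_pre pre_prefix)
open Encodable

namespace ModORM

/-- strings with code less than `s` -/
def cands (s : ℕ) : List (List Bool) := (List.range s).filterMap (decode₂ (List Bool))

theorem mem_cands {s : ℕ} {y : List Bool} : y ∈ cands s ↔ encode y < s := by
  simp only [cands, List.mem_filterMap, List.mem_range]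
  constructor
  · rintro ⟨a, ha, h⟩
    have : encode y = a := mem_decode₂.1 h
    omega
  · intro h
    exact ⟨_, h, mem_decode₂.2 rfl⟩

theorem primrec_cands : Primrec cands :=
  Primrec.listFilterMap Primrec.list_range (Primrec.decode₂.comp Primrec.snd)

variable (q : (List Bool × List Bool × List Bool) → ℕ → Prop)

/-- `y` is found as an output for `τ` at stage `k` with the oracle string `σ` -/
def Found (z : ℕ × List Bool × List Bool × List Bool) : Prop :=
  z.1 ≤ z.2.1.length ∧ encode z.2.2.2 < z.1 ∧ ∃ j < z.1 + 1, q (z.2.1.take j, z.2.2.1, z.2.2.2) z.1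

/-- `y` is the first output found -/
def First (x : List Bool × List Bool × List Bool) : Prop :=
  ∃ k < x.1.length + 1, Found q (k, x.1, x.2.1, x.2.2) ∧
    (∀ k' < k, ∀ y' ∈ cands k', ¬ Found q (k', x.1, x.2.1, y')) ∧
    ∀ y' ∈ cands k, encode y' < encode x.2.2 → ¬ Found q (k, x.1, x.2.1, y')

variable {q}

theorem found_iff {k : ℕ} {σ σ' τ y : List Bool} (h : σ <+: σ') (hk : k ≤ σ.length) :
    Found q (k, σ, τ, y) ↔ Found q (k, σ', τ, y) := by
  have h1 : ∀ j < k + 1, σ'.take j = σ.take j := by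
    intro j hj
    obtain ⟨t, rfl⟩ := h
    rw [List.take_append_of_le_length (by omega)]
  have hl := h.length_le
  simp only [Found]
  constructor
  · rintro ⟨_, h2, j, hj, h3⟩
    exact ⟨by omega, h2, j, hj, by rw [h1 j hj]; exact h3⟩
  · rintro ⟨_, h2, j, hj, h3⟩
    exact ⟨by omega, h2, j, hj, by rw [← h1 j hj]; exact h3⟩

theorem first_mono {σ σ' τ y : List Bool} (h : σ <+: σ') (hf : First q (σ, τ, y)) :
    First q (σ', τ, y) := by
  obtain ⟨k, hk, h1, h2, h3⟩ := hf
  have hl := h.length_le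
  simp only at hk h1 h2 h3
  refine ⟨k, by simp only; omega, (found_iff h (by omega)).1 h1, ?_, ?_⟩
  · intro k' hk' y' hy' hh
    exact h2 k' hk' y' hy' ((found_iff h (by omega)).2 hh)
  · intro y' hy' hlt hh
    exact h3 y' hy' hlt ((found_iff h (by omega)).2 hh)

theorem first_unique {σ τ y y' : List Bool} (h : First q (σ, τ, y)) (h' : First q (σ, τ, y')) :
    y = y' := by
  obtain ⟨k, hk, h1, h2, h3⟩ := h
  obtain ⟨k', hk', h1', h2', h3'⟩ := h'
  simp only at hk h1 h2 h3 hk' h1' h2' h3'
  have hkk : k = k' := by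
    rcases lt_trichotomy k k' with hlt | heq | hgt
    · exact absurd h1 (h2' k hlt y (mem_cands.2 h1.2.1))
    · exact heq
    · exact absurd h1' (h2 k' hgt y' (mem_cands.2 h1'.2.1))
  subst hkk
  apply Encodable.encode_injective
  rcases lt_trichotomy (encode y) (encode y') with hlt | heq | hgt
  · exact absurd h1 (h3' y (mem_cands.2 h1.2.1) hlt)
  · exact heq
  · exact absurd h1' (h3 y' (mem_cands.2 h1'.2.1) hgt)

theorem primrec_found (hq : PrimrecRel q) : PrimrecPred (Found q) := by
  refine PrimrecPred.and ?_ (PrimrecPred.and ?_ ?_)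
  · exact Primrec.nat_le.comp Primrec.fst (Primrec.list_length.comp
      (Primrec.fst.comp Primrec.snd))
  · exact Primrec.nat_lt.comp (Primrec.encode.comp (Primrec.snd.comp
      (Primrec.snd.comp Primrec.snd))) Primrec.fst
  · refine PP.ex_lt (α := ℕ × List Bool × List Bool × List Bool) (f := fun z => z.1 + 1)
      (p := fun z j => q (z.2.1.take j, z.2.2.1, z.2.2.2) z.1) ?_ (Primrec.succ.comp Primrec.fst)
    have e1 : Primrec fun u : (ℕ × List Bool × List Bool × List Bool) × ℕ => u.1.2.1 :=
      Primrec.fst.comp (Primrec.snd.comp Primrec.fst)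
    have e2 : Primrec fun u : (ℕ × List Bool × List Bool × List Bool) × ℕ => u.1.2.2 :=
      Primrec.snd.comp (Primrec.snd.comp Primrec.fst)
    exact hq.comp ((Primrec.list_take.comp Primrec.snd e1).pair e2)
      (Primrec.fst.comp Primrec.fst)

theorem primrec_first (hq : PrimrecRel q) : PrimrecPred (First q) := by
  have hF := primrec_found hq
  refine PP.ex_lt (α := List Bool × List Bool × List Bool) (f := fun x => x.1.length + 1)
    (p := fun x k => Found q (k, x.1, x.2.1, x.2.2) ∧
      (∀ k' < k, ∀ y' ∈ cands k', ¬ Found q (k', x.1, x.2.1, y')) ∧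
      ∀ y' ∈ cands k, encode y' < encode x.2.2 → ¬ Found q (k, x.1, x.2.1, y')) ?_
    (Primrec.succ.comp (Primrec.list_length.comp Primrec.fst))
  refine PrimrecPred.and ?_ (PrimrecPred.and ?_ ?_)
  · exact hF.comp (Primrec.snd.pair Primrec.fst)
  · refine PP.all_lt (α := (List Bool × List Bool × List Bool) × ℕ) (f := fun u => u.2)
      (p := fun u k' => ∀ y' ∈ cands k', ¬ Found q (k', u.1.1, u.1.2.1, y')) ?_ Primrec.snd
    refine PP.all_mem (α := ((List Bool × List Bool × List Bool) × ℕ) × ℕ)
      (f := fun u => cands u.2) (p := fun u y' => ¬ Found q (u.2, u.1.1.1, u.1.1.2.1, y')) ?_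
      (primrec_cands.comp Primrec.snd)
    refine PrimrecPred.not (hF.comp ?_)
    exact (Primrec.snd.comp Primrec.fst).pair
      ((Primrec.fst.comp (Primrec.fst.comp (Primrec.fst.comp Primrec.fst))).pair
      ((Primrec.fst.comp (Primrec.snd.comp (Primrec.fst.comp (Primrec.fst.comp Primrec.fst)))).pair
      Primrec.snd))
  · refine PP.all_mem (α := (List Bool × List Bool × List Bool) × ℕ)
      (f := fun u => cands u.2)
      (p := fun u y' => encode y' < encode u.1.2.2 → ¬ Found q (u.2, u.1.1, u.1.2.1, y')) ?_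
      (primrec_cands.comp Primrec.snd)
    have h1 : PrimrecPred fun z : ((List Bool × List Bool × List Bool) × ℕ) × List Bool =>
        ¬ (encode z.2 < encode z.1.1.2.2) ∨ ¬ Found q (z.1.2, z.1.1.1, z.1.1.2.1, z.2) := by
      refine PrimrecPred.or (PrimrecPred.not ?_) (PrimrecPred.not (hF.comp ?_))
      · exact Primrec.nat_lt.comp (Primrec.encode.comp Primrec.snd)
          (Primrec.encode.comp (Primrec.snd.comp (Primrec.snd.comp
            (Primrec.fst.comp Primrec.fst))))
      · exact (Primrec.snd.comp Primrec.fst).pair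
          ((Primrec.fst.comp (Primrec.fst.comp Primrec.fst)).pair
          ((Primrec.fst.comp (Primrec.snd.comp (Primrec.fst.comp Primrec.fst))).pair Primrec.snd))
    exact h1.of_eq fun z => by tauto

/-- partial function with the given graph -/
noncomputable def mk (R : List Bool → List Bool → Prop) : List Bool →. List Bool :=
  fun τ => ⟨∃ y, R τ y, fun h => h.choose⟩

theorem mem_mk {R : List Bool → List Bool → Prop} (h : ∀ τ y y', R τ y → R τ y' → y = y')
    {τ y : List Bool} : y ∈ mk R τ ↔ R τ y := by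
  constructor
  · rintro ⟨h1, h2⟩
    rw [← h2]
    exact h1.choose_spec
  · intro hb
    exact ⟨⟨y, hb⟩, h _ _ _ (Exists.choose_spec (⟨y, hb⟩ : ∃ b, R τ b)) hb⟩

end ModORM

open ModORM

/-- **module ORM** -/
theorem orm : StmORM := by
  classical
  rintro V ⟨⟨G, hG, hGm, hGe⟩, hopt⟩ B
  refine ⟨recIn_of_graph' (S1.of_re hG) (fun τ y => hGe B τ y), ?_⟩
  intro M hM
  obtain ⟨H, hH, hHm, hHe⟩ := recIn_graph' hM
  obtain ⟨q, hq, hqm, hqe⟩ := hH
  let M' : (ℕ → Bool) → List Bool →. List Bool := fun B' => mk (fun τ y => ∃ s, First q (pre B' s, τ, y))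
  have huniq : ∀ (B' : ℕ → Bool) (τ y y' : List Bool), (∃ s, First q (pre B' s, τ, y)) →
      (∃ s, First q (pre B' s, τ, y')) → y = y' := by
    rintro B' τ y y' ⟨s, hs⟩ ⟨s', hs'⟩
    exact first_unique (first_mono (pre_prefix B' (le_max_left s s')) hs)
      (first_mono (pre_prefix B' (le_max_right s s')) hs')
  have hmem : ∀ (B' : ℕ → Bool) (τ y : List Bool), y ∈ M' B' τ ↔ ∃ s, First q (pre B' s, τ, y) :=
    fun B' τ y => mem_mk (huniq B')
  have hOM : IsOM M' :=
    ⟨First q, (S1.of_prim (primrec_first hq)).re, fun σ σ' τ y h hf => first_mono h hf, hmem⟩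
  obtain ⟨c, hc⟩ := hopt M' hOM
  refine ⟨c, fun τ y hy => hc B τ y ?_⟩
  rw [hmem]
  -- soundness
  have hsound : ∀ k s y', k ≤ s → Found q (k, pre B s, τ, y') → y' = y := by
    rintro k s y' hks ⟨_, _, j, hj, h3⟩
    simp only at h3 hj
    rw [take_pre B s j (by omega)] at h3
    have h4 : y' ∈ M τ := (hHe τ y').2 ⟨j, (hqe _).2 ⟨k, h3⟩⟩
    exact Part.mem_unique h4 hy
  obtain ⟨s, hs⟩ := (hHe τ y).1 hy
  obtain ⟨n, hn⟩ := (hqe _).1 hs
  have hex : ∃ k, Found q (k, pre B k, τ, y) := by
    refine ⟨max (max s n) (encode y + 1), ?_, ?_, s, ?_, ?_⟩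
    · simp
    · simp only; omega
    · simp only; omega
    · simp only
      rw [take_pre B _ s (by omega)]
      exact hqm _ _ _ (by omega) hn
  let k := Nat.find hex
  have hk : Found q (k, pre B k, τ, y) := Nat.find_spec hex
  refine ⟨k, k, ?_, hk, ?_, ?_⟩
  · simp [pre]
  · intro k' hk' y' hy' hf
    have h1 := hsound k' k y' hk'.le hf
    subst h1
    refine Nat.find_min hex hk' ?_
    exact (found_iff (pre_prefix B hk'.le) (by simp [pre])).2 hf
  · intro y' _ hlt hf
    have h1 := hsound k k y' le_rfl hf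
    subst h1
    exact absurd hlt (lt_irrefl _)

end Pool.Agent.T6.H92.CB
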