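import Pool.Agent.T6.H92.CB.Defs2

/-!
Project CB, module PRA: the parameters are primitive recursive.
-/

set_option autoImplicit false

namespace Pool.Agent.T6.H92.CB

namespace ModPRA

theorem pow_prim (a : ℕ) : Primrec (fun n : ℕ => a ^ n) := by
  have h : Primrec (fun n : ℕ => Nat.rec (motive := fun _ => ℕ) 1 (fun _ r => r * a) n) := by
    refine Primrec.nat_rec₁ 1 ?_
    exact Primrec.nat_mul.comp₂ Primrec₂.right (Primrec₂.const a)
  refine h.of_eq fun n => ?_
  induction n with
  | zero => simp
  | succ n ih =>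
    simp only [pow_succ]
    rw [← ih]

end ModPRA

theorem pra : StmPRA := by
  have h2 := ModPRA.pow_prim 2
  have h8 := ModPRA.pow_prim 8
  have hw : Primrec wi := Primrec.nat_add.comp Primrec.id (Primrec.const 3)
  have hw2 : Primrec fun i => 2 ^ wi i := h2.comp hw
  refine ⟨h2, h8, Primrec.nat_mul.comp hw2 h8, ?_, Primrec.nat_mul.comp h8 hw, fun ap hap => ?_⟩
  · exact Primrec.nat_mul.comp (Primrec.nat_mul.comp (Primrec.const 16) Primrec.id) hw2
  · exact Primrec.list_take.comp (h8.comp Primrec.fst)
      (hap.comp (Primrec.nat_div.comp Primrec.snd (hw2.comp Primrec.fst)))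

end Pool.Agent.T6.H92.CB
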