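import Pool.Agent.T6.H92.CB.Defs2

/-!
Project CB, module PRB: the constraints are primitive recursive.
-/

set_option autoImplicit false

namespace Pool.Agent.T6.H92.CB

open Pool.Agent.Helper227 (chi pre SI S1)

namespace ModPRB

open Pool.Agent.Helper227

theorem primrec_pow2 (hA : StmPRA) : Primrec (fun n : ℕ => 2 ^ n) := hA.1

theorem primrec_testBit (hA : StmPRA) : Primrec (fun z : ℕ × ℕ => z.1.testBit z.2) := by
  have h1 : PrimrecPred (fun z : ℕ × ℕ => z.1 / 2 ^ z.2 % 2 = 1) :=
    Primrec.eq.comp (Primrec.nat_mod.comp (Primrec.nat_div.comp Primrec.fst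
      ((primrec_pow2 hA).comp Primrec.snd)) (Primrec.const 2)) (Primrec.const 1)
  obtain ⟨hd, h2⟩ := h1
  refine h2.of_eq fun z => ?_
  rw [Nat.testBit_eq_decide_div_mod_eq]
  exact decide_eq_decide.mpr Iff.rfl

/-- the predicate in the definition of `ipar` -/
def R (j : ℕ) (t : ℕ × ℕ × List Bool × List Bool) : Prop :=
  (t.2.2.1.getD j false && t.2.2.2.getD (t.2.1 * t.1 + j) false) = true

theorem primrec_R : PrimrecRel R := by
  have hv : Primrec (fun z : ℕ × (ℕ × ℕ × List Bool × List Bool) => z.2.2.2.1.getD z.1 false) :=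
    (Primrec.list_getD false).comp
      (Primrec.fst.comp (Primrec.snd.comp (Primrec.snd.comp Primrec.snd))) Primrec.fst
  have hx : Primrec (fun z : ℕ × (ℕ × ℕ × List Bool × List Bool) =>
      z.2.2.2.2.getD (z.2.2.1 * z.2.1 + z.1) false) :=
    (Primrec.list_getD false).comp
      (Primrec.snd.comp (Primrec.snd.comp (Primrec.snd.comp Primrec.snd)))
      (Primrec.nat_add.comp (Primrec.nat_mul.comp
        (Primrec.fst.comp (Primrec.snd.comp Primrec.snd)) (Primrec.fst.comp Primrec.snd))
        Primrec.fst)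
  exact Primrec.eq.comp (Primrec.and.comp hv hx) (Primrec.const true)

theorem primrec_ipar : Primrec (fun t : ℕ × ℕ × List Bool × List Bool =>
    ipar t.1 t.2.1 t.2.2.1 t.2.2.2) := by
  classical
  have h1 : Primrec (fun t : ℕ × ℕ × List Bool × List Bool =>
      ((List.range t.1).filter (fun j => decide (R j t))).length) :=
    Primrec.list_length.comp (primrec_R.listFilter.comp (Primrec.list_range.comp Primrec.fst)
      Primrec.id)
  have h2 : PrimrecPred (fun t : ℕ × ℕ × List Bool × List Bool =>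
      ((List.range t.1).filter (fun j => decide (R j t))).length % 2 = 1) :=
    Primrec.eq.comp (Primrec.nat_mod.comp h1 (Primrec.const 2)) (Primrec.const 1)
  obtain ⟨hd, h3⟩ := h2
  refine h3.of_eq fun t => ?_
  unfold ipar
  have h4 : ∀ j, decide (R j t) = (t.2.2.1.getD j false && t.2.2.2.getD (t.2.1 * t.1 + j) false) := by
    intro j
    unfold R
    rw [Bool.decide_eq_true]
  simp only [h4]

end ModPRB

theorem prb : StmPRB := by
  intro hA ap hap
  have hmi : Primrec mi := hA.2.1
  have hlab : Primrec (fun p : ℕ × ℕ => lab ap p.1 p.2) := hA.2.2.2.2.2 ap hap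
  have hwi : Primrec wi := Primrec.nat_add.comp Primrec.id (Primrec.const 3)
  have h1 : PrimrecPred (fun p : ℕ × ℕ × List Bool => ∃ q < wi p.1,
      ¬ (p.2.1.testBit q = ipar (mi p.1) q (lab ap p.1 p.2.1) p.2.2)) := by
    refine Pool.Agent.Helper227.PP.ex_lt (α := ℕ × ℕ × List Bool) (f := fun p => wi p.1)
      (p := fun p q => ¬ (p.2.1.testBit q = ipar (mi p.1) q (lab ap p.1 p.2.1) p.2.2)) ?_
      (hwi.comp Primrec.fst)
    refine PrimrecPred.not (Primrec.eq.comp ?_ ?_)
    · exact (ModPRB.primrec_testBit hA).comp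
        ((Primrec.fst.comp (Primrec.snd.comp Primrec.fst)).pair Primrec.snd)
    · exact ModPRB.primrec_ipar.comp ((hmi.comp (Primrec.fst.comp Primrec.fst)).pair
        (Primrec.snd.pair ((hlab.comp ((Primrec.fst.comp Primrec.fst).pair
          (Primrec.fst.comp (Primrec.snd.comp Primrec.fst)))).pair
          (Primrec.snd.comp (Primrec.snd.comp Primrec.fst)))))
  exact h1

end Pool.Agent.T6.H92.CB
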