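import Pool.Agent.T6.H92.CB.Defs2

/-!
Project CB, module PRC: the function `fv` is primitive recursive.
-/

set_option autoImplicit false

namespace Pool.Agent.T6.H92.CB

open Pool.Agent.Helper227 (chi pre SI S1)

namespace ModPRC

open Pool.Agent.Helper227

/-- the predicate in the definition of `fv` -/
def R (ap : ℕ → List Bool) (b : ℕ) (p : ℕ × List Bool) : Prop :=
  p.2.getD b false = true ∧ si p.1 ≤ b ∧
    ∀ b' < b, p.2.getD b' false = true → si p.1 ≤ b' → lab ap p.1 b' ≠ lab ap p.1 b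

theorem primrec_R (hA : StmPRA) (ap : ℕ → List Bool) (hap : Primrec ap) : PrimrecRel (R ap) := by
  have hsi : Primrec si := hA.2.2.1
  have hlab : Primrec (fun p : ℕ × ℕ => lab ap p.1 p.2) := hA.2.2.2.2.2 ap hap
  have hall : PrimrecPred (fun z : ℕ × (ℕ × List Bool) => ∀ b' < z.1,
      ¬ (z.2.2.getD b' false = true ∧ si z.2.1 ≤ b' ∧ lab ap z.2.1 b' = lab ap z.2.1 z.1)) := by
    refine PP.all_lt (α := ℕ × (ℕ × List Bool)) (f := fun z => z.1)
      (p := fun z b' => ¬ (z.2.2.getD b' false = true ∧ si z.2.1 ≤ b' ∧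
        lab ap z.2.1 b' = lab ap z.2.1 z.1)) ?_ Primrec.fst
    refine PrimrecPred.not (PrimrecPred.and ?_ (PrimrecPred.and ?_ ?_))
    · exact Primrec.eq.comp ((Primrec.list_getD false).comp
        (Primrec.snd.comp (Primrec.snd.comp Primrec.fst)) Primrec.snd) (Primrec.const true)
    · exact Primrec.nat_le.comp (hsi.comp (Primrec.fst.comp (Primrec.snd.comp Primrec.fst)))
        Primrec.snd
    · exact Primrec.eq.comp
        (hlab.comp ((Primrec.fst.comp (Primrec.snd.comp Primrec.fst)).pair Primrec.snd))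
        (hlab.comp ((Primrec.fst.comp (Primrec.snd.comp Primrec.fst)).pair
          (Primrec.fst.comp Primrec.fst)))
  have h1 : PrimrecPred (fun z : ℕ × (ℕ × List Bool) => z.2.2.getD z.1 false = true) :=
    Primrec.eq.comp ((Primrec.list_getD false).comp (Primrec.snd.comp Primrec.snd) Primrec.fst)
      (Primrec.const true)
  have h2 : PrimrecPred (fun z : ℕ × (ℕ × List Bool) => si z.2.1 ≤ z.1) :=
    Primrec.nat_le.comp (hsi.comp (Primrec.fst.comp Primrec.snd)) Primrec.fst
  refine (PrimrecPred.and h1 (PrimrecPred.and h2 hall)).of_eq fun z => ?_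
  unfold R
  constructor
  · rintro ⟨g1, g2, g3⟩
    exact ⟨g1, g2, fun b' hb' g4 g5 g6 => g3 b' hb' ⟨g4, g5, g6⟩⟩
  · rintro ⟨g1, g2, g3⟩
    exact ⟨g1, g2, fun b' hb' g4 => g3 b' hb' g4.1 g4.2.1 g4.2.2⟩

end ModPRC

theorem prc : StmPRC := by
  classical
  intro hA ap hap
  have h1 := ModPRC.primrec_R hA ap hap
  refine (h1.listFilter.comp (Primrec.list_range.comp (Primrec.list_length.comp Primrec.snd))
    Primrec.id).of_eq fun x => ?_
  unfold fv
  apply List.filter_congr
  intro b _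
  exact decide_eq_decide.mpr Iff.rfl

end Pool.Agent.T6.H92.CB
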