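import Pool.Agent.T6.H92.CB.Defs2
import Pool.Agent.Helper227.SOne

/-!
Project CB, module RANDP: the function `apr` is primitive recursive.
-/

set_option autoImplicit false

namespace Pool.Agent.T6.H92.CB

namespace ModRANDP

open Pool.Agent.Helper227 (PP.ex_mem PP.ex_lt)

theorem strs_prim : Primrec strs := by
  have h : Primrec₂ (fun (_ : ℕ) (L : List (List Bool)) =>
      L.flatMap (fun v => [v ++ [false], v ++ [true]])) := by
    refine Primrec.list_flatMap (f := fun p : ℕ × List (List Bool) => p.2)
      (g := fun _ v => [v ++ [false], v ++ [true]]) Primrec.snd ?_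
    have h1 : Primrec (fun q : (ℕ × List (List Bool)) × List Bool => q.2 ++ [false]) :=
      Primrec.list_concat.comp Primrec.snd (Primrec.const false)
    have h2 : Primrec (fun q : (ℕ × List (List Bool)) × List Bool => q.2 ++ [true]) :=
      Primrec.list_concat.comp Primrec.snd (Primrec.const true)
    exact Primrec.list_cons.comp h1 (Primrec.list_cons.comp h2 (Primrec.const []))
  refine (Primrec.nat_rec₁ [[]] h).of_eq fun n => ?_
  induction n with
  | zero => rfl
  | succ n ih => simp only [strs]; rw [← ih]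

theorem pow_prim : Primrec (fun n : ℕ => 2 ^ n) := by
  have h : Primrec₂ (fun (_ : ℕ) (m : ℕ) => 2 * m) :=
    Primrec.nat_mul.comp (Primrec.const 2) Primrec.snd
  refine (Primrec.nat_rec₁ 1 h).of_eq fun n => ?_
  induction n with
  | zero => rfl
  | succ n ih =>
    have : (Nat.rec 1 (fun _ m => 2 * m) (n + 1) : ℕ) = 2 * Nat.rec 1 (fun _ m => 2 * m) n := rfl
    rw [this, ih, pow_succ]; ring

theorem filt_len (n m : ℕ) (h : m ≤ n) :
    ((List.range n).filter (fun j => decide (j < m))).length = m := by
  induction n with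
  | zero => simp; omega
  | succ n ih =>
    rw [List.range_succ, List.filter_append, List.length_append]
    rcases Nat.lt_or_ge n m with h1 | h1
    · have h2 : m = n + 1 := by omega
      subst h2
      have h3 : (List.range n).filter (fun j => decide (j < n + 1)) = List.range n := by
        rw [List.filter_eq_self]
        intro a ha
        have := List.mem_range.1 ha
        simp; omega
      rw [h3]; simp
    · rw [ih h1]
      have : ¬ n < m := by omega
      simp [this]

theorem log_eq (n : ℕ) :
    ((List.range n).filter (fun j => decide (2 ^ (j + 1) ≤ n))).length = Nat.log 2 n := by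
  rcases Nat.eq_zero_or_pos n with h | h
  · subst h; simp
  · have h1 : (List.range n).filter (fun j => decide (2 ^ (j + 1) ≤ n)) =
        (List.range n).filter (fun j => decide (j < Nat.log 2 n)) := by
      apply List.filter_congr
      intro j _
      have : 2 ^ (j + 1) ≤ n ↔ j < Nat.log 2 n := by
        rw [← Nat.le_log_iff_pow_le (by norm_num) (by omega)]
        omega
      simp only [this]
    rw [h1, filt_len]
    exact Nat.log_le_self 2 n

theorem log_prim : Primrec (fun n : ℕ => Nat.log 2 n) := by
  have h : PrimrecRel (fun (j n : ℕ) => 2 ^ (j + 1) ≤ n) :=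
    Primrec.nat_le.comp (pow_prim.comp (Primrec.succ.comp Primrec.fst)) Primrec.snd
  have h2 := PrimrecRel.listFilter h
  refine (Primrec.list_length.comp (h2.comp Primrec.list_range Primrec.id)).of_eq fun n => ?_
  exact log_eq n

/-- the innermost condition -/
def core (t : ℕ) (v : List Bool) (e l k : ℕ) (τ : List Bool) : Prop :=
  k + 2 * Nat.log 2 (l + 1) + e + 5 < l ∧
    Nat.Partrec.Code.evaln t (Denumerable.ofNat Nat.Partrec.Code e) (Encodable.encode τ) =
      some (Encodable.encode (v.take l))

theorem core_gen {α : Type} [Primcodable α] {t e l k : α → ℕ} {v τ : α → List Bool}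
    (ht : Primrec t) (he : Primrec e) (hl : Primrec l) (hk : Primrec k) (hv : Primrec v)
    (hτ : Primrec τ) : PrimrecPred (fun a => core (t a) (v a) (e a) (l a) (k a) (τ a)) := by
  have hl1 : Primrec (fun a => l a + 1) := Primrec.succ.comp hl
  have hlog : Primrec (fun a => Nat.log 2 (l a + 1)) := log_prim.comp hl1
  have h2log : Primrec (fun a => 2 * Nat.log 2 (l a + 1)) :=
    Primrec.nat_mul.comp (Primrec.const 2) hlog
  have hs1 : Primrec (fun a => k a + 2 * Nat.log 2 (l a + 1)) := Primrec.nat_add.comp hk h2log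
  have hs2 : Primrec (fun a => k a + 2 * Nat.log 2 (l a + 1) + e a) := Primrec.nat_add.comp hs1 he
  have hs3 : Primrec (fun a => k a + 2 * Nat.log 2 (l a + 1) + e a + 5) :=
    Primrec.nat_add.comp hs2 (Primrec.const 5)
  have hcode : Primrec (fun a => Denumerable.ofNat Nat.Partrec.Code (e a)) :=
    (Primrec.ofNat Nat.Partrec.Code).comp he
  have hin : Primrec (fun a => Encodable.encode (τ a)) := Primrec.encode.comp hτ
  have hp : Primrec (fun a => ((t a, Denumerable.ofNat Nat.Partrec.Code (e a)),
      Encodable.encode (τ a))) := (ht.pair hcode).pair hin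
  have hev : Primrec (fun a => Nat.Partrec.Code.evaln (t a)
      (Denumerable.ofNat Nat.Partrec.Code (e a)) (Encodable.encode (τ a))) :=
    Nat.Partrec.Code.primrec_evaln.comp hp
  have htk : Primrec (fun a => (v a).take (l a)) := Primrec.list_take.comp hl hv
  have htk2 : Primrec (fun a => some (Encodable.encode ((v a).take (l a)))) :=
    Primrec.option_some.comp (Primrec.encode.comp htk)
  have hA : PrimrecPred (fun a => k a + 2 * Nat.log 2 (l a + 1) + e a + 5 < l a) :=
    Primrec.nat_lt.comp hs3 hl
  have hB : PrimrecPred (fun a => Nat.Partrec.Code.evaln (t a)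
      (Denumerable.ofNat Nat.Partrec.Code (e a)) (Encodable.encode (τ a)) =
        some (Encodable.encode ((v a).take (l a)))) := Primrec.eq.comp hev htk2
  exact hA.and hB

theorem core_prim : PrimrecPred (fun y : ((((ℕ × List Bool) × ℕ) × ℕ) × ℕ) × List Bool =>
    core y.1.1.1.1.1 y.1.1.1.1.2 y.1.1.1.2 y.1.1.2 y.1.2 y.2) :=
  core_gen (Primrec.fst.comp (Primrec.fst.comp (Primrec.fst.comp (Primrec.fst.comp Primrec.fst))))
    (Primrec.snd.comp (Primrec.fst.comp (Primrec.fst.comp Primrec.fst)))
    (Primrec.snd.comp (Primrec.fst.comp Primrec.fst))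
    (Primrec.snd.comp Primrec.fst)
    (Primrec.snd.comp (Primrec.fst.comp (Primrec.fst.comp (Primrec.fst.comp Primrec.fst))))
    Primrec.snd

theorem bad_prim : PrimrecPred (fun x : ℕ × List Bool => bad x.1 x.2) := by
  have h1 : PrimrecPred (fun y : (((ℕ × List Bool) × ℕ) × ℕ) × ℕ =>
      ∃ τ ∈ strs y.2, core y.1.1.1.1 y.1.1.1.2 y.1.1.2 y.1.2 y.2 τ) :=
    PP.ex_mem (α := (((ℕ × List Bool) × ℕ) × ℕ) × ℕ) (f := fun y => strs y.2)
      (p := fun y τ => core y.1.1.1.1 y.1.1.1.2 y.1.1.2 y.1.2 y.2 τ) core_prim
      (strs_prim.comp Primrec.snd)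
  have h2 : PrimrecPred (fun y : ((ℕ × List Bool) × ℕ) × ℕ =>
      ∃ k < y.2, ∃ τ ∈ strs k, core y.1.1.1 y.1.1.2 y.1.2 y.2 k τ) :=
    PP.ex_lt (α := ((ℕ × List Bool) × ℕ) × ℕ) (f := fun y => y.2)
      (p := fun y k => ∃ τ ∈ strs k, core y.1.1.1 y.1.1.2 y.1.2 y.2 k τ) h1 Primrec.snd
  have h3 : PrimrecPred (fun y : (ℕ × List Bool) × ℕ =>
      ∃ l < y.1.2.length + 1, ∃ k < l, ∃ τ ∈ strs k, core y.1.1 y.1.2 y.2 l k τ) :=
    PP.ex_lt (α := (ℕ × List Bool) × ℕ) (f := fun y => y.1.2.length + 1)
      (p := fun y l => ∃ k < l, ∃ τ ∈ strs k, core y.1.1 y.1.2 y.2 l k τ) h2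
      (Primrec.succ.comp (Primrec.list_length.comp (Primrec.snd.comp Primrec.fst)))
  exact PP.ex_lt (α := ℕ × List Bool) (f := fun y => y.1)
    (p := fun y e => ∃ l < y.2.length + 1, ∃ k < l, ∃ τ ∈ strs k, core y.1 y.2 e l k τ) h3
    Primrec.fst

end ModRANDP

open Classical in
theorem randp : StmRANDP := by
  have h1 : PrimrecRel (fun (v : List Bool) (t : ℕ) => ¬ bad t v) :=
    (ModRANDP.bad_prim.comp (Primrec.snd.pair Primrec.fst)).not
  have h2 : Primrec (fun t : ℕ => (strs t).filter (fun v => decide (¬ bad t v))) :=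
    (PrimrecRel.listFilter h1).comp ModRANDP.strs_prim Primrec.id
  have h3 : Primrec (fun t : ℕ => List.replicate t false) := by
    refine (Primrec.list_map (f := fun t : ℕ => List.range t) (g := fun _ _ => false)
      Primrec.list_range (Primrec.const false).to₂).of_eq fun t => ?_
    simp [List.map_const']
  have h4 : Primrec (fun t : ℕ =>
      ((strs t).filter (fun v => decide (¬ bad t v))).head?.getD (List.replicate t false)) :=
    Primrec.option_getD.comp (Primrec.list_head?.comp h2) h3
  refine h4.of_eq fun t => ?_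
  unfold apr
  rw [List.headD_eq_head?_getD]

end Pool.Agent.T6.H92.CB
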