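import Pool.Agent.T6.H92.CB.Defs2
import Mathlib

/-!
Module RANDX (helper13): a random sequence with a computable approximation.
-/

set_option autoImplicit false

namespace Pool.Agent.T6.H92.CB
namespace ModRANDX

open Pool.Agent.Helper227 (chi pre SI S1)

/-- binary value -/
def val (v : List Bool) : ℕ := v.foldl (fun a b => 2 * a + b.toNat) 0

theorem val_append (v : List Bool) (b : Bool) : val (v ++ [b]) = 2 * val v + b.toNat := by
  simp [val]

theorem mem_strs (t : ℕ) (v : List Bool) : v ∈ strs t ↔ v.length = t := by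
  induction t generalizing v with
  | zero => simp [strs]
  | succ t ih =>
    simp only [strs, List.mem_flatMap]
    constructor
    · rintro ⟨u, hu, hv⟩
      rw [ih] at hu
      simp only [List.mem_cons, List.not_mem_nil, or_false] at hv
      rcases hv with rfl | rfl <;> simp [hu]
    · intro hv
      have hne : v ≠ [] := by
        intro h; rw [h] at hv; simp at hv
      refine ⟨v.dropLast, (ih _).2 (by simp [hv]), ?_⟩
      have h1 := List.dropLast_append_getLast hne
      cases h : v.getLast hne
      · rw [h] at h1; rw [← h1]; simp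
      · rw [h] at h1; rw [← h1]; simp

theorem strs_val (t : ℕ) : (strs t).map val = List.range (2 ^ t) := by
  induction t with
  | zero => rfl
  | succ t ih =>
    have h1 : (strs (t + 1)).map val =
        ((strs t).map val).flatMap (fun a => [2 * a, 2 * a + 1]) := by
      simp only [strs, List.map_flatMap, List.flatMap_map]
      refine List.flatMap_congr fun v _ => ?_
      simp [val_append]
    rw [h1, ih]
    have h2 : ∀ N : ℕ, (List.range N).flatMap (fun a => [2 * a, 2 * a + 1]) =
        List.range (2 * N) := by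
      intro N
      induction N with
      | zero => rfl
      | succ N ihN =>
        rw [List.range_succ, List.flatMap_append, ihN, show 2 * (N + 1) = 2 * N + 1 + 1 by ring,
          List.range_succ, List.range_succ]
        simp
    rw [h2]
    congr 1
    ring

theorem val_lt (v : List Bool) : val v < 2 ^ v.length := by
  have h := (mem_strs v.length v).2 rfl
  have h2 : val v ∈ (strs v.length).map val := List.mem_map_of_mem h
  rw [strs_val, List.mem_range] at h2
  exact h2

theorem strs_pairwise (t : ℕ) : (strs t).Pairwise (fun a b => val a < val b) := by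
  have h : ((strs t).map val).Pairwise (· < ·) := by
    rw [strs_val]; exact List.pairwise_lt_range
  exact List.pairwise_map.1 h

theorem strs_nodup (t : ℕ) : (strs t).Nodup := by
  refine (strs_pairwise t).imp fun {a b} h => ?_
  rintro rfl
  exact lt_irrefl _ h

theorem val_inj {u v : List Bool} (hl : u.length = v.length) (h : val u = val v) : u = v := by
  have h1 := strs_pairwise v.length
  have hu := (mem_strs v.length u).2 hl
  have hv := (mem_strs v.length v).2 rfl
  by_contra hne
  obtain ⟨i, hi, rfl⟩ := List.getElem_of_mem hu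
  obtain ⟨j, hj, hjv⟩ := List.getElem_of_mem hv
  have hij : i ≠ j := by
    rintro rfl
    exact hne hjv
  rw [List.pairwise_iff_getElem] at h1
  rcases lt_or_gt_of_ne hij with hlt | hlt
  · have h3 := h1 i j hi hj hlt
    rw [hjv] at h3
    omega
  · have h3 := h1 j i hj hi hlt
    rw [hjv] at h3
    omega

theorem val_take (v : List Bool) (m : ℕ) (hm : m ≤ v.length) :
    val (v.take m) = val v / 2 ^ (v.length - m) := by
  induction v using List.reverseRecOn generalizing m with
  | nil => simp at hm; subst hm; rfl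
  | append_singleton v b ih =>
    rcases Nat.lt_or_ge v.length m with h | h
    · have : m = (v ++ [b]).length := by simp at hm ⊢; omega
      rw [this, List.take_length]; simp
    · rw [List.take_append_of_le_length h, ih m h, val_append]
      have e : (v ++ [b]).length - m = (v.length - m) + 1 := by simp; omega
      rw [e, pow_succ, mul_comm (2 ^ (v.length - m)) 2, ← Nat.div_div_eq_div_mul]
      congr 1
      cases b <;> (simp; try omega)

/-- monotonicity of badness -/
theorem bad_mono {t t' : ℕ} (htt : t ≤ t') {v' : List Bool} {n : ℕ}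
    (h : bad t (v'.take n)) : bad t' v' := by
  obtain ⟨e, he, l, hl, k, hk, τ, hτ, hlt, hev⟩ := h
  refine ⟨e, he.trans_le htt, l, ?_, k, hk, τ, hτ, hlt, ?_⟩
  · rw [List.length_take] at hl
    omega
  · have h1 : (v'.take n).take l = v'.take l := by
      rw [List.take_take]
      congr 1
      rw [List.length_take] at hl
      omega
    rw [h1] at hev
    exact Nat.Partrec.Code.evaln_mono htt hev

/-- real bound for one level -/
theorem level_sum (N : ℕ) : ∑ l ∈ Finset.range N, (1 : ℝ) / 4 ^ (Nat.log 2 (l + 1)) ≤ 8 := by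
  have h1 : ∀ l : ℕ, (1 : ℝ) / 4 ^ (Nat.log 2 (l + 1)) ≤ 4 * (1 / ((l : ℝ) + 1) ^ 2) := by
    intro l
    have h2 : l + 1 < 2 ^ (Nat.log 2 (l + 1) + 1) := Nat.lt_pow_succ_log_self (by norm_num) _
    have h3 : ((l : ℝ) + 1) ≤ 2 * 2 ^ (Nat.log 2 (l + 1)) := by
      have : ((l + 1 : ℕ) : ℝ) < ((2 ^ (Nat.log 2 (l + 1) + 1) : ℕ) : ℝ) := by exact_mod_cast h2
      push_cast at this
      rw [pow_succ] at this
      linarith
    have h4 : ((l : ℝ) + 1) ^ 2 ≤ 4 * 4 ^ (Nat.log 2 (l + 1)) := by
      have h5 := pow_le_pow_left₀ (by positivity : (0 : ℝ) ≤ (l : ℝ) + 1) h3 2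
      have h6 : (2 * (2 : ℝ) ^ (Nat.log 2 (l + 1))) ^ 2 = 4 * 4 ^ (Nat.log 2 (l + 1)) := by
        rw [mul_pow, ← pow_mul, mul_comm (Nat.log 2 (l + 1)) 2, pow_mul]
        norm_num
      rwa [h6] at h5
    rw [mul_one_div, div_le_div_iff₀ (by positivity) (by positivity)]
    linarith
  have h2 : ∀ N : ℕ, ∑ l ∈ Finset.range (N + 1), (1 : ℝ) / ((l : ℝ) + 1) ^ 2 ≤
      2 - 1 / ((N : ℝ) + 1) := by
    intro N
    induction N with
    | zero => simp; norm_num
    | succ N ih =>
      rw [Finset.sum_range_succ]
      have h3 : (1 : ℝ) / ((N : ℝ) + 1 + 1) ^ 2 ≤ 1 / ((N : ℝ) + 1) - 1 / ((N : ℝ) + 1 + 1) := by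
        rw [div_sub_div _ _ (by positivity) (by positivity),
          div_le_div_iff₀ (by positivity) (by positivity)]
        nlinarith [(Nat.cast_nonneg N : (0 : ℝ) ≤ N)]
      push_cast
      linarith
  calc ∑ l ∈ Finset.range N, (1 : ℝ) / 4 ^ (Nat.log 2 (l + 1))
      ≤ ∑ l ∈ Finset.range N, 4 * (1 / ((l : ℝ) + 1) ^ 2) :=
        Finset.sum_le_sum fun l _ => h1 l
    _ ≤ ∑ l ∈ Finset.range (N + 1), 4 * (1 / ((l : ℝ) + 1) ^ 2) := by
        refine Finset.sum_le_sum_of_subset_of_nonneg ?_ fun l _ _ => by positivity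
        exact Finset.range_mono (Nat.le_succ N)
    _ = 4 * ∑ l ∈ Finset.range (N + 1), 1 / ((l : ℝ) + 1) ^ 2 := by rw [Finset.mul_sum]
    _ ≤ 4 * (2 - 1 / ((N : ℝ) + 1)) := mul_le_mul_of_nonneg_left (h2 N) (by norm_num)
    _ ≤ 8 := by
        have : 0 ≤ 1 / ((N : ℝ) + 1) := by positivity
        linarith

/-- one term of the count -/
noncomputable def trm (t e l k : ℕ) : ℕ :=
  if k + 2 * Nat.log 2 (l + 1) + e + 5 < l then 2 ^ k * 2 ^ (t - l) else 0

theorem trm_sum (t e l : ℕ) (hl : l ≤ t) :
    ((∑ k ∈ Finset.range l, trm t e l k : ℕ) : ℝ) ≤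
      2 ^ t * ((1 / 2) ^ (e + 5) * (1 / 4 ^ (Nat.log 2 (l + 1)))) := by
  set K := l - (2 * Nat.log 2 (l + 1) + e + 5) with hK
  have h1 : ∑ k ∈ Finset.range l, trm t e l k ≤ 2 ^ K * 2 ^ (t - l) - (if K = 0 then 1 * 2 ^ (t - l) else 0) := by
    have h2 : ∑ k ∈ Finset.range l, trm t e l k = ∑ k ∈ Finset.range K, 2 ^ k * 2 ^ (t - l) := by
      unfold trm
      rw [← Finset.sum_filter]
      refine Finset.sum_congr ?_ fun _ _ => rfl
      ext k
      simp only [Finset.mem_filter, Finset.mem_range]
      omega
    rw [h2, ← Finset.sum_mul]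
    split_ifs with h0
    · rw [h0]; simp
    · rw [Nat.sub_zero]
      refine Nat.mul_le_mul_right _ ?_
      have := Nat.geomSum_lt (m := 2) (n := K) (s := Finset.range K) (by norm_num)
        (fun k hk => Finset.mem_range.1 hk)
      exact this.le
  rcases Nat.eq_zero_or_pos K with h0 | h0
  · rw [h0] at h1
    simp only [pow_zero, one_mul, if_true, Nat.sub_self] at h1
    have h3 : ∑ k ∈ Finset.range l, trm t e l k = 0 := by omega
    rw [h3, Nat.cast_zero]
    positivity
  · have hK2 : K + (2 * Nat.log 2 (l + 1) + e + 5) = l := by omega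
    rw [if_neg (by omega), Nat.sub_zero] at h1
    have h4 : ((∑ k ∈ Finset.range l, trm t e l k : ℕ) : ℝ) ≤ 2 ^ K * 2 ^ (t - l) := by
      exact_mod_cast h1
    refine h4.trans (le_of_eq ?_)
    have e1 : t = K + (t - l) + 2 * Nat.log 2 (l + 1) + (e + 5) := by omega
    have e2 : (2 : ℝ) ^ t = 2 ^ K * 2 ^ (t - l) * 4 ^ (Nat.log 2 (l + 1)) * 2 ^ (e + 5) := by
      conv_lhs => rw [e1]
      rw [pow_add, pow_add, pow_add, pow_mul]
      norm_num
    rw [e2, one_div, inv_pow]
    field_simp

theorem total (t : ℕ) :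
    ∑ e ∈ Finset.range t, ∑ l ∈ Finset.range (t + 1), ∑ k ∈ Finset.range l, trm t e l k <
      2 ^ t := by
  have h1 : ((∑ e ∈ Finset.range t, ∑ l ∈ Finset.range (t + 1),
      ∑ k ∈ Finset.range l, trm t e l k : ℕ) : ℝ) ≤
      ∑ e ∈ Finset.range t, ∑ l ∈ Finset.range (t + 1),
        2 ^ t * ((1 / 2) ^ (e + 5) * (1 / 4 ^ (Nat.log 2 (l + 1)))) := by
    rw [Nat.cast_sum]
    refine Finset.sum_le_sum fun e _ => ?_
    rw [Nat.cast_sum]
    refine Finset.sum_le_sum fun l hl => ?_
    exact trm_sum t e l (by rw [Finset.mem_range] at hl; omega)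
  have h2 : ∑ e ∈ Finset.range t, ∑ l ∈ Finset.range (t + 1),
        (2 : ℝ) ^ t * ((1 / 2) ^ (e + 5) * (1 / 4 ^ (Nat.log 2 (l + 1)))) ≤
      ∑ e ∈ Finset.range t, (2 : ℝ) ^ t * ((1 / 2) ^ (e + 5) * 8) := by
    refine Finset.sum_le_sum fun e _ => ?_
    rw [← Finset.mul_sum, ← Finset.mul_sum]
    refine mul_le_mul_of_nonneg_left ?_ (by positivity)
    exact mul_le_mul_of_nonneg_left (level_sum (t + 1)) (by positivity)
  have h3 : ∑ e ∈ Finset.range t, (2 : ℝ) ^ t * ((1 / 2) ^ (e + 5) * 8) ≤ 2 ^ t * (1 / 2) := by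
    rw [← Finset.mul_sum]
    refine mul_le_mul_of_nonneg_left ?_ (by positivity)
    have h4 : ∀ t : ℕ, ∑ e ∈ Finset.range t, ((1 / 2 : ℝ) ^ (e + 5) * 8) =
        1 / 2 - 1 / 2 * (1 / 2) ^ t := by
      intro t
      induction t with
      | zero => norm_num
      | succ t ih =>
        rw [Finset.sum_range_succ, ih, pow_succ, pow_add]
        ring
    rw [h4 t]
    have : 0 ≤ 1 / 2 * (1 / 2 : ℝ) ^ t := by positivity
    linarith
  have h5 : ((∑ e ∈ Finset.range t, ∑ l ∈ Finset.range (t + 1),
      ∑ k ∈ Finset.range l, trm t e l k : ℕ) : ℝ) < ((2 ^ t : ℕ) : ℝ) := by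
    push_cast
    have h6 : (0 : ℝ) < 2 ^ t := by positivity
    push_cast at h1
    linarith
  exact_mod_cast h5

theorem card_strs (t : ℕ) : (strs t).toFinset.card = 2 ^ t := by
  rw [List.toFinset_card_of_nodup (strs_nodup t)]
  have := congrArg List.length (strs_val t)
  simpa using this

/-- there is a string which is not bad -/
theorem exists_good (t : ℕ) : ∃ v ∈ strs t, ¬ bad t v := by
  classical
  by_contra hcon
  push Not at hcon
  set G : ℕ → ℕ → List Bool → Finset (List Bool) := fun e l τ =>
    (strs t).toFinset.filter (fun v =>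
      Nat.Partrec.Code.evaln t (Denumerable.ofNat Nat.Partrec.Code e) (Encodable.encode τ) =
        some (Encodable.encode (v.take l))) with hG
  have hGc : ∀ e l τ, (G e l τ).card ≤ 2 ^ (t - l) := by
    intro e l τ
    rw [← card_strs (t - l)]
    refine Finset.card_le_card_of_injOn (fun v => v.drop l) ?_ ?_
    · intro v hv
      simp only [hG, Finset.coe_filter, List.mem_toFinset, Set.mem_ofPred_eq] at hv
      simp only [List.coe_toFinset, Set.mem_ofPred_eq]
      rw [mem_strs, List.length_drop, (mem_strs t v).1 hv.1]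
    · intro v hv v' hv' hvv
      simp only [hG, Finset.coe_filter, List.mem_toFinset, Set.mem_ofPred_eq] at hv hv'
      have h1 := hv.2.symm.trans hv'.2
      have h2 : v.take l = v'.take l := Encodable.encode_injective (Option.some.inj h1)
      simp only at hvv
      rw [← List.take_append_drop l v, ← List.take_append_drop l v', h2, hvv]
  have hsub : (strs t).toFinset ⊆ (Finset.range t).biUnion fun e =>
      (Finset.range (t + 1)).biUnion fun l => (Finset.range l).biUnion fun k =>
        if k + 2 * Nat.log 2 (l + 1) + e + 5 < l then (strs k).toFinset.biUnion (G e l) else ∅ := by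
    intro v hv
    rw [List.mem_toFinset] at hv
    obtain ⟨e, he, l, hl, k, hk, τ, hτ, hlt, hev⟩ := hcon v hv
    simp only [Finset.mem_biUnion, Finset.mem_range]
    refine ⟨e, he, l, ?_, k, hk, ?_⟩
    · rw [(mem_strs t v).1 hv] at hl; exact hl
    · rw [if_pos hlt]
      simp only [Finset.mem_biUnion, List.mem_toFinset]
      refine ⟨τ, hτ, ?_⟩
      simp only [hG, Finset.mem_filter, List.mem_toFinset]
      exact ⟨hv, hev⟩
  have h1 := Finset.card_le_card hsub
  rw [card_strs] at h1
  have h2 : ((Finset.range t).biUnion fun e =>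
      (Finset.range (t + 1)).biUnion fun l => (Finset.range l).biUnion fun k =>
        if k + 2 * Nat.log 2 (l + 1) + e + 5 < l then (strs k).toFinset.biUnion (G e l)
        else ∅).card ≤
      ∑ e ∈ Finset.range t, ∑ l ∈ Finset.range (t + 1), ∑ k ∈ Finset.range l, trm t e l k := by
    refine Finset.card_biUnion_le.trans (Finset.sum_le_sum fun e _ => ?_)
    refine Finset.card_biUnion_le.trans (Finset.sum_le_sum fun l _ => ?_)
    refine Finset.card_biUnion_le.trans (Finset.sum_le_sum fun k _ => ?_)
    unfold trm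
    split_ifs
    · refine Finset.card_biUnion_le.trans ?_
      refine (Finset.sum_le_card_nsmul _ _ (2 ^ (t - l)) fun τ _ => hGc e l τ).trans ?_
      rw [card_strs, smul_eq_mul]
    · simp
  have h3 := total t
  omega

/-- the properties of `apr t` -/
theorem apr_spec (t : ℕ) : (apr t).length = t ∧ ¬ bad t (apr t) ∧
    ∀ v : List Bool, v.length = t → ¬ bad t v → val (apr t) ≤ val v := by
  classical
  obtain ⟨v0, hv0, hg0⟩ := exists_good t
  set L := (strs t).filter (fun v => decide (¬ bad t v)) with hL
  have hne : L ≠ [] := by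
    intro h
    have : v0 ∈ L := by
      rw [hL, List.mem_filter]
      exact ⟨hv0, by simpa using hg0⟩
    rw [h] at this
    exact absurd this (List.not_mem_nil)
  obtain ⟨a, L', haL⟩ := List.exists_cons_of_ne_nil hne
  have hap : apr t = a := by
    unfold apr
    rw [show ((strs t).filter (fun v => decide (¬ bad t v))) = a :: L' from haL]
    rfl
  have ha : a ∈ L := by rw [haL]; exact List.mem_cons_self
  rw [hL, List.mem_filter] at ha
  have ha2 : ¬ bad t a := by simpa using ha.2
  rw [hap]
  refine ⟨(mem_strs t a).1 ha.1, ha2, fun v hv hg => ?_⟩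
  have hvL : v ∈ L := by
    rw [hL, List.mem_filter]
    exact ⟨(mem_strs t v).2 hv, by simpa using hg⟩
  have hpw : L.Pairwise (fun a b => val a < val b) := (strs_pairwise t).filter _
  rw [haL] at hvL hpw
  rcases List.mem_cons.1 hvL with rfl | h
  · exact le_rfl
  · exact ((List.pairwise_cons.1 hpw).1 v h).le

/-- initial segments of the approximations -/
theorem val_apr_mono {m t t' : ℕ} (hm : m ≤ t) (htt : t ≤ t') :
    val ((apr t).take m) ≤ val ((apr t').take m) := by
  obtain ⟨l1, -, h1⟩ := apr_spec t
  obtain ⟨l2, g2, -⟩ := apr_spec t'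
  have h2 : ((apr t').take t).length = t := by rw [List.length_take, l2]; omega
  have h3 := h1 ((apr t').take t) h2 (fun hb => g2 (bad_mono htt hb))
  have h4 : (apr t').take m = ((apr t').take t).take m := by
    rw [List.take_take, min_eq_left hm]
  rw [h4, val_take (apr t) m (by omega), val_take ((apr t').take t) m (by omega), l1, h2]
  exact Nat.div_le_div_right h3

theorem exists_lim (m : ℕ) : ∃ s : List Bool, s.length = m ∧ ∃ T, ∀ t, T ≤ t →
    (apr t).take m = s := by
  -- a bounded nondecreasing sequence of naturals is eventually constant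
  set f : ℕ → ℕ := fun t => val ((apr (m + t)).take m) with hf
  have hmono : Monotone f := by
    intro a b hab
    exact val_apr_mono (by omega) (by omega)
  have hlen : ∀ t, m ≤ t → ((apr t).take m).length = m := by
    intro t ht
    rw [List.length_take, (apr_spec t).1]; omega
  have hbd : ∀ t, f t < 2 ^ m := by
    intro t
    have := val_lt ((apr (m + t)).take m)
    rwa [hlen _ (by omega)] at this
  have hmax : ∃ T, ∀ t, f t ≤ f T := by
    by_contra hcon
    push Not at hcon
    have h1 : ∀ k : ℕ, ∃ t, k ≤ f t := by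
      intro k
      induction k with
      | zero => exact ⟨0, Nat.zero_le _⟩
      | succ k ih =>
        obtain ⟨t, ht⟩ := ih
        obtain ⟨t', ht'⟩ := hcon t
        exact ⟨t', by omega⟩
    obtain ⟨t, ht⟩ := h1 (2 ^ m)
    exact absurd (hbd t) (by omega)
  obtain ⟨T, hT⟩ := hmax
  refine ⟨(apr (m + T)).take m, hlen _ (by omega), m + T, fun t ht => ?_⟩
  obtain ⟨u, rfl⟩ : ∃ u, t = m + u := ⟨t - m, by omega⟩
  refine val_inj ?_ ?_
  · rw [hlen _ (by omega), hlen _ (by omega)]
  · have h1 : f u = f T := le_antisymm (hT u) (hmono (by omega))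
    exact h1

end ModRANDX

open Pool.Agent.Helper227 in
open ModRANDX in
theorem randx : StmRANDX := by
  refine ⟨fun t => (apr_spec t).1, ?_⟩
  choose s hs hlim using exists_lim
  choose T hT using hlim
  have hcoh : ∀ m m' : ℕ, m ≤ m' → (s m').take m = s m := by
    intro m m' hmm
    have h1 := hT m (max (T m) (T m')) (le_max_left _ _)
    have h2 := hT m' (max (T m) (T m')) (le_max_right _ _)
    rw [← h1, ← h2, List.take_take, min_eq_left hmm]
  refine ⟨fun n => (s (n + 1)).getD n false, ?_, ?_⟩
  · intro m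
    refine ⟨T m, fun t ht => ?_⟩
    rw [hT m t ht]
    refine List.ext_getElem (by rw [hs, length_pre]) fun i h1 h2 => ?_
    rw [hs] at h1
    have h3 := hcoh (i + 1) m h1
    have h4 : (s m)[i] = (s (i + 1)).getD i false := by
      have h5 : i < (s (i + 1)).length := by rw [hs]; omega
      rw [List.getD_eq_getElem _ _ h5]
      simp only [← h3, List.getElem_take]
    rw [h4]
    simp [pre]
  · intro U hU
    obtain ⟨c, hc⟩ := Nat.Partrec.Code.exists_code.1 hU
    refine ⟨Encodable.encode c + 5, fun n τ hτ => ?_⟩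
    by_contra hcon
    push Not at hcon
    set X : ℕ → Bool := fun n => (s (n + 1)).getD n false with hX
    have hpre : s n = pre X n := by
      refine List.ext_getElem (by rw [hs, length_pre]) fun i h1 h2 => ?_
      rw [hs] at h1
      have h3 := hcoh (i + 1) n h1
      have h4 : (s n)[i] = (s (i + 1)).getD i false := by
        have h5 : i < (s (i + 1)).length := by rw [hs]; omega
        rw [List.getD_eq_getElem _ _ h5]
        simp only [← h3, List.getElem_take]
      rw [h4]
      simp [pre, hX]
    have hev : Encodable.encode (pre X n) ∈ Nat.Partrec.Code.eval c (Encodable.encode τ) := by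
      rw [hc]
      simp only [Encodable.encodek, Part.coe_some, Part.bind_some, Part.mem_map_iff]
      exact ⟨_, hτ, rfl⟩
    obtain ⟨k, hk⟩ := Nat.Partrec.Code.evaln_complete.1 hev
    set t := max (max k (Encodable.encode c + 1)) (max n (T n)) with ht
    have t1 : k ≤ t := (le_max_left _ _).trans (le_max_left _ _)
    have t2 : Encodable.encode c + 1 ≤ t := (le_max_right _ _).trans (le_max_left _ _)
    have t3 : n ≤ t := (le_max_left _ _).trans (le_max_right _ _)
    have t4 : T n ≤ t := (le_max_right _ _).trans (le_max_right _ _)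
    obtain ⟨l1, g1, -⟩ := apr_spec t
    apply g1
    refine ⟨Encodable.encode c, by omega, n, by omega, τ.length, ?_, τ,
      (mem_strs _ _).2 rfl, ?_, ?_⟩
    · have : 0 ≤ Nat.log 2 (n + 1) := Nat.zero_le _
      omega
    · omega
    · rw [hT n t t4, hpre, Denumerable.ofNat_encode]
      exact Nat.Partrec.Code.evaln_mono t1 hk

end Pool.Agent.T6.H92.CB
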