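import Pool.Agent.T6.H92.CB.Defs2

/-!
Project CB, module SIA: the candidates of the first kind are Sigma-one relative to the oracle.
-/

set_option autoImplicit false

namespace Pool.Agent.T6.H92.CB

open Pool.Agent.Helper227 (chi pre SI S1)
open Pool.Agent.Helper227

namespace ModSIA

/-- the inner condition -/
def In (ap : ℕ → List Bool) (α : List Bool) (y : ℕ × List Bool) (b : ℕ) : Prop :=
  ((¬ α.getD b false = true) ∨ ¬ si y.1 ≤ b) ∨ Ok ap y.1 b y.2

/-- the condition at stage `s` -/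
def St (ap : ℕ → List Bool) (α : List Bool) (y : ℕ × List Bool) (s : ℕ) : Prop :=
  2 ^ ri y.1 ≤ (fv ap y.1 (α.take s)).length ∧ ∀ b < s, In ap α y b

/-- the finite approximation -/
def Ev (ap : ℕ → List Bool) (x : List Bool × ℕ × List Bool) : Prop :=
  x.2.2.length = li x.2.1 ∧ ∃ s < x.1.length + 1, St ap x.1 x.2 s

theorem getD_pfx {σ τ : List Bool} (h : σ <+: τ) {b : ℕ} (hb : b < σ.length) :
    τ.getD b false = σ.getD b false := by
  obtain ⟨ρ, rfl⟩ := h
  simp only [List.getD_eq_getElem?_getD]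
  rw [List.getElem?_append_left hb]

theorem take_pfx {σ τ : List Bool} (h : σ <+: τ) {s : ℕ} (hs : s ≤ σ.length) :
    τ.take s = σ.take s := by
  obtain ⟨ρ, rfl⟩ := h
  rw [List.take_append_of_le_length hs]

theorem st_mono {ap : ℕ → List Bool} {σ τ : List Bool} (h : σ <+: τ) {y : ℕ × List Bool} {s : ℕ}
    (hs : s ≤ σ.length) : St ap σ y s ↔ St ap τ y s := by
  unfold St
  rw [take_pfx h hs]
  refine and_congr Iff.rfl (forall_congr' fun b => forall_congr' fun hb => ?_)
  unfold In
  rw [getD_pfx h (lt_of_lt_of_le hb hs)]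

theorem ev_mono (ap : ℕ → List Bool) (σ τ : List Bool) (a : ℕ × List Bool) (h : σ <+: τ)
    (hE : Ev ap (σ, a)) : Ev ap (τ, a) := by
  obtain ⟨h1, s, hs, h2⟩ := hE
  simp only at h1 hs h2
  have hl : σ.length ≤ τ.length := h.length_le
  exact ⟨h1, s, by simp only; omega, (st_mono h (by omega)).1 h2⟩

theorem ev_iff (ap : ℕ → List Bool) (B : ℕ → Bool) (a : ℕ × List Bool) :
    P1 ap B a ↔ ∃ n, Ev ap (pre B n, a) := by
  unfold P1 Ev
  constructor
  · rintro ⟨h1, s, h2, h3⟩
    refine ⟨s, h1, s, by simp, ?_, ?_⟩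
    · rw [take_pre B s s le_rfl]
      exact h2
    · intro b hb
      unfold In
      rw [pre_getD B s b false hb]
      by_cases hB : B b = true
      · by_cases hsi : si a.1 ≤ b
        · exact Or.inr (h3 b hb hB hsi)
        · exact Or.inl (Or.inr hsi)
      · exact Or.inl (Or.inl hB)
  · rintro ⟨n, h1, s, hs, h2, h3⟩
    simp only [length_pre] at h1 hs h2 h3
    refine ⟨h1, s, ?_, ?_⟩
    · rwa [take_pre B n s (by omega)] at h2
    · intro b hb hB hsi
      have := h3 b hb
      unfold In at this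
      rw [pre_getD B n b false (by omega)] at this
      tauto

theorem ok_prim (hA : StmPRA) (hB : StmPRB) {ap : ℕ → List Bool} (hap : Primrec ap) :
    PrimrecRel (fun (z : (List Bool × ℕ × List Bool) × ℕ) (b : ℕ) => In ap z.1.1 z.1.2 b) := by
  have h1 := hB hA ap hap
  obtain ⟨_, _, hsi, _, _, _⟩ := hA
  unfold In
  have e1 : Primrec fun w : ((List Bool × ℕ × List Bool) × ℕ) × ℕ => w.1.1 :=
    Primrec.fst.comp Primrec.fst
  have e2 : Primrec fun w : ((List Bool × ℕ × List Bool) × ℕ) × ℕ => w.1.1.2.1 :=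
    Primrec.fst.comp (Primrec.snd.comp e1)
  have e3 : Primrec fun w : ((List Bool × ℕ × List Bool) × ℕ) × ℕ => w.1.1.2.2 :=
    Primrec.snd.comp (Primrec.snd.comp e1)
  have e4 : Primrec fun w : ((List Bool × ℕ × List Bool) × ℕ) × ℕ => w.1.1.1 :=
    Primrec.fst.comp e1
  refine PrimrecPred.or (PrimrecPred.or (PrimrecPred.not ?_) (PrimrecPred.not ?_)) ?_
  · exact Primrec.eq.comp ((Primrec.list_getD false).comp e4 Primrec.snd) (Primrec.const true)
  · exact Primrec.nat_le.comp (hsi.comp e2) Primrec.snd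
  · exact h1.comp (e2.pair (Primrec.snd.pair e3))

theorem st_prim (hA : StmPRA) (hB : StmPRB) (hC : StmPRC) {ap : ℕ → List Bool}
    (hap : Primrec ap) :
    PrimrecRel (fun (x : List Bool × ℕ × List Bool) (s : ℕ) => St ap x.1 x.2 s) := by
  have h1 := hC hA ap hap
  have h2 := ok_prim hA hB hap
  obtain ⟨hpow, _, _, hri, _, _⟩ := hA
  unfold St
  have e1 : Primrec fun w : (List Bool × ℕ × List Bool) × ℕ => w.1.2.1 :=
    Primrec.fst.comp (Primrec.snd.comp Primrec.fst)
  refine PrimrecPred.and ?_ ?_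
  · refine Primrec.nat_le.comp (hpow.comp (hri.comp e1)) (Primrec.list_length.comp ?_)
    exact h1.comp (e1.pair (Primrec.list_take.comp Primrec.snd (Primrec.fst.comp Primrec.fst)))
  · exact PP.all_lt (α := (List Bool × ℕ × List Bool) × ℕ)
      (p := fun z b => In ap z.1.1 z.1.2 b) h2 Primrec.snd

theorem ev_prim (hA : StmPRA) (hB : StmPRB) (hC : StmPRC) {ap : ℕ → List Bool}
    (hap : Primrec ap) : PrimrecPred (Ev ap) := by
  have h1 := st_prim hA hB hC hap
  obtain ⟨_, _, _, _, hli, _⟩ := hA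
  unfold Ev
  refine PrimrecPred.and ?_ ?_
  · exact Primrec.eq.comp (Primrec.list_length.comp (Primrec.snd.comp Primrec.snd))
      (hli.comp (Primrec.fst.comp Primrec.snd))
  · exact PP.ex_lt (α := List Bool × ℕ × List Bool)
      (p := fun x s => St ap x.1 x.2 s) h1 (Primrec.succ.comp (Primrec.list_length.comp Primrec.fst))

end ModSIA

theorem sia : StmPRA → StmPRB → StmPRC → StmSIA := by
  intro hA hB hC ap hap B
  exact ⟨ModSIA.Ev ap, S1.of_prim (ModSIA.ev_prim hA hB hC hap), ModSIA.ev_mono ap,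
    ModSIA.ev_iff ap B⟩

end Pool.Agent.T6.H92.CB
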