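import Pool.Agent.T6.H92.CB.Defs2

/-!
Project CB, module SIB: the candidates of the second kind are Sigma-one relative to `B`.
-/

set_option autoImplicit false

namespace Pool.Agent.T6.H92.CB

open Pool.Agent.Helper227 (chi pre SI S1)

namespace ModSIB

open Pool.Agent.Helper227

/-- the approximation of `P2` -/
def E (ap : ℕ → List Bool) (z : List Bool × (ℕ × List Bool)) : Prop :=
  ∃ b < z.1.length, z.1.getD b false = true ∧ si z.2.1 ≤ b ∧ lab ap z.2.1 b = z.2.2 ∧
    (fv ap z.2.1 (z.1.take b)).length < 2 ^ ri z.2.1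

theorem primrec_E (hA : StmPRA) (hC : StmPRC) (ap : ℕ → List Bool) (hap : Primrec ap) :
    PrimrecPred (E ap) := by
  have h2 : Primrec (fun n : ℕ => 2 ^ n) := hA.1
  have hsi : Primrec si := hA.2.2.1
  have hri : Primrec ri := hA.2.2.2.1
  have hlab : Primrec (fun p : ℕ × ℕ => lab ap p.1 p.2) := hA.2.2.2.2.2 ap hap
  have hfv : Primrec (fun p : ℕ × List Bool => fv ap p.1 p.2) := hC hA ap hap
  refine PP.ex_lt (α := List Bool × (ℕ × List Bool)) (f := fun z => z.1.length)
    (p := fun z b => z.1.getD b false = true ∧ si z.2.1 ≤ b ∧ lab ap z.2.1 b = z.2.2 ∧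
      (fv ap z.2.1 (z.1.take b)).length < 2 ^ ri z.2.1) ?_ (Primrec.list_length.comp Primrec.fst)
  have hz1 : Primrec (fun z : (List Bool × (ℕ × List Bool)) × ℕ => z.1.1) :=
    Primrec.fst.comp Primrec.fst
  have hz2 : Primrec (fun z : (List Bool × (ℕ × List Bool)) × ℕ => z.1.2.1) :=
    Primrec.fst.comp (Primrec.snd.comp Primrec.fst)
  have hz3 : Primrec (fun z : (List Bool × (ℕ × List Bool)) × ℕ => z.1.2.2) :=
    Primrec.snd.comp (Primrec.snd.comp Primrec.fst)
  have hz4 : Primrec (fun z : (List Bool × (ℕ × List Bool)) × ℕ => z.2) := Primrec.snd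
  have htake : Primrec (fun z : (List Bool × (ℕ × List Bool)) × ℕ => z.1.1.take z.2) :=
    Primrec.list_take.comp hz4 hz1
  refine PrimrecPred.and ?_ (PrimrecPred.and ?_ (PrimrecPred.and ?_ ?_))
  · exact Primrec.eq.comp ((Primrec.list_getD false).comp hz1 hz4) (Primrec.const true)
  · exact Primrec.nat_le.comp (hsi.comp hz2) hz4
  · exact Primrec.eq.comp (hlab.comp (hz2.pair hz4)) hz3
  · exact Primrec.nat_lt.comp (Primrec.list_length.comp (hfv.comp (hz2.pair htake)))
      (h2.comp (hri.comp hz2))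

theorem mono_E (ap : ℕ → List Bool) (σ τ : List Bool) (a : ℕ × List Bool) (h : σ <+: τ)
    (hE : E ap (σ, a)) : E ap (τ, a) := by
  obtain ⟨ρ, rfl⟩ := h
  obtain ⟨b, hb, h1, h2, h3, h4⟩ := hE
  simp only at hb h1 h2 h3 h4
  refine ⟨b, ?_, ?_, h2, h3, ?_⟩
  · simp only [List.length_append]
    omega
  · simp only
    rw [List.getD_append _ _ _ _ hb]
    exact h1
  · simp only
    rw [List.take_append_of_le_length hb.le]
    exact h4

theorem iff_E (ap : ℕ → List Bool) (B : ℕ → Bool) (a : ℕ × List Bool) :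
    P2 ap B a ↔ ∃ s, E ap (pre B s, a) := by
  constructor
  · rintro ⟨b, h1, h2, h3, h4⟩
    refine ⟨b + 1, b, ?_, ?_, h2, h3, ?_⟩
    · simp
    · simp only
      rw [pre_getD B (b + 1) b false (Nat.lt_succ_self b)]
      exact h1
    · simp only
      rw [take_pre B (b + 1) b (Nat.le_succ b)]
      exact h4
  · rintro ⟨s, b, hb, h1, h2, h3, h4⟩
    simp only [length_pre] at hb
    simp only at h1 h2 h3 h4
    rw [pre_getD B s b false hb] at h1
    rw [take_pre B s b hb.le] at h4
    exact ⟨b, h1, h2, h3, h4⟩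

end ModSIB

theorem sib : (StmPRA → StmPRC → StmSIB) := by
  intro hA hC ap hap B
  exact ⟨ModSIB.E ap, S1.of_prim (ModSIB.primrec_E hA hC ap hap),
    fun σ τ a h h' => ModSIB.mono_E ap σ τ a h h', fun a => ModSIB.iff_E ap B a⟩

end Pool.Agent.T6.H92.CB
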