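import Mathlib
import Pool.Agent.T6.H92.CB.Defs

/-!
Project CB, module SMALL: a small Sigma-one set is enumerated by a machine with short programs.
-/

set_option autoImplicit false

namespace Pool.Agent.T6.H92.CB

open Pool.Agent.Helper227 Encodable

namespace ModSMALL

/-- partial function with the given graph -/
noncomputable def partOf {α β : Type*} (G : α → β → Prop) : α →. β :=
  fun a => ⟨∃ b, G a b, fun h => h.choose⟩

theorem mem_partOf {α β : Type*} {G : α → β → Prop} {a : α}
    (h : ∀ b b', G a b → G a b' → b = b') {b : β} : b ∈ partOf G a ↔ G a b := by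
  constructor
  · rintro ⟨h1, h2⟩
    rw [← h2]
    exact h1.choose_spec
  · intro hb
    exact ⟨⟨b, hb⟩, h _ _ (Exists.choose_spec (⟨b, hb⟩ : ∃ b, G a b)) hb⟩

/-- one step of the enumeration without repetitions -/
def step (acc : List (List Bool)) (x : List Bool) : List (List Bool) :=
  if x ∈ acc then acc else acc ++ [x]

/-- the distinct elements in the order of their first appearance -/
def nd (l : List (List Bool)) : List (List Bool) := l.foldl step []

theorem foldl_prefix (l : List (List Bool)) : ∀ acc, acc <+: l.foldl step acc := by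
  induction l with
  | nil => intro acc; exact List.prefix_refl _
  | cons x l ih =>
    intro acc
    refine List.IsPrefix.trans ?_ (ih (step acc x))
    unfold step
    split_ifs
    · exact List.prefix_refl _
    · exact List.prefix_append _ _

theorem nd_prefix {l l' : List (List Bool)} (h : l <+: l') : nd l <+: nd l' := by
  obtain ⟨r, rfl⟩ := h
  unfold nd
  rw [List.foldl_append]
  exact foldl_prefix _ _

theorem nd_concat (l : List (List Bool)) (x : List Bool) : nd (l ++ [x]) = step (nd l) x := by
  simp [nd, List.foldl_append]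

theorem mem_nd (l : List (List Bool)) (y : List Bool) : y ∈ nd l ↔ y ∈ l := by
  induction l using List.reverseRecOn with
  | nil => simp [nd]
  | append_singleton l x ih =>
    rw [nd_concat, step]
    split_ifs with h
    · rw [ih, List.mem_append, List.mem_singleton]
      constructor
      · exact Or.inl
      · rintro (h1 | rfl)
        · exact h1
        · exact ih.1 h
    · rw [List.mem_append, List.mem_append, ih]

theorem nodup_nd (l : List (List Bool)) : (nd l).Nodup := by
  induction l using List.reverseRecOn with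
  | nil => simp [nd]
  | append_singleton l x ih =>
    rw [nd_concat, step]
    split_ifs with h
    · exact ih
    · rw [List.nodup_append]
      refine ⟨ih, List.nodup_singleton _, ?_⟩
      rintro a ha b hb rfl
      rw [List.mem_singleton] at hb
      exact h (hb ▸ ha)

/-- the value of a bit string -/
def val (z : List Bool) : ℕ := z.foldr (fun b a => 2 * a + b.toNat) 0

theorem exists_val (k : ℕ) : ∀ r, r < 2 ^ k → ∃ z : List Bool, z.length = k ∧ val z = r := by
  induction k with
  | zero =>
    intro r hr
    exact ⟨[], rfl, by simp [val] at hr ⊢; omega⟩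
  | succ k ih =>
    intro r hr
    obtain ⟨z, hz, hv⟩ := ih (r / 2) (by rw [pow_succ] at hr; omega)
    refine ⟨decide (r % 2 = 1) :: z, by simp [hz], ?_⟩
    have : val (decide (r % 2 = 1) :: z) = 2 * val z + (decide (r % 2 = 1)).toNat := rfl
    rw [this, hv]
    by_cases h : r % 2 = 1
    · simp [h]; omega
    · simp [h]; omega

theorem primrec_val : Primrec val := by
  refine Primrec.list_foldr (f := fun z : List Bool => z) (g := fun _ => 0)
    (h := fun _ p => 2 * p.2 + p.1.toNat) Primrec.id (Primrec.const 0) ?_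
  refine Primrec.nat_add.comp (Primrec.nat_mul.comp (Primrec.const 2)
    (Primrec.snd.comp Primrec.snd)) ?_
  exact (Primrec.dom_finite Bool.toNat).comp (Primrec.fst.comp Primrec.snd)

theorem hd_inj {i i' : ℕ} {u u' : List Bool} (h : hd i ++ u = hd i' ++ u') : i = i' ∧ u = u' := by
  induction i generalizing i' with
  | zero =>
    cases i' with
    | zero => simpa [hd] using h
    | succ n => simp [hd, List.replicate_succ] at h
  | succ n ih =>
    cases i' with
    | zero => simp [hd, List.replicate_succ] at h
    | succ m =>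
      have h0 : hd n ++ u = hd m ++ u' := by simpa [hd, List.replicate_succ] using h
      obtain ⟨h1, h2⟩ := ih h0
      exact ⟨by rw [h1], h2⟩

theorem primrec_hd : Primrec hd := by
  have h : Primrec fun n : ℕ => (List.range n).map (fun _ => true) ++ [false] :=
    Primrec.list_append.comp (Primrec.list_map Primrec.list_range (Primrec.const true))
      (Primrec.const [false])
  exact h.of_eq fun n => by simp [hd]

theorem primrec_step : Primrec₂ step := by
  have h1 : PrimrecPred fun z : List (List Bool) × List Bool => z.2 ∈ z.1 := by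
    refine (PP.ex_mem (α := List (List Bool) × List Bool) (f := fun z => z.1)
      (p := fun z b => b = z.2) ?_ Primrec.fst).of_eq fun z => by simp
    exact Primrec.eq.comp Primrec.snd (Primrec.snd.comp Primrec.fst)
  exact Primrec.ite h1 Primrec.fst (Primrec.list_append.comp Primrec.fst
    (Primrec.list_cons.comp Primrec.snd (Primrec.const [])))

theorem primrec_nd : Primrec nd :=
  Primrec.list_foldl (f := fun l : List (List Bool) => l) (g := fun _ => [])
    (h := fun _ p => step p.1 p.2) Primrec.id (Primrec.const [])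
    (primrec_step.comp (Primrec.fst.comp Primrec.snd) (Primrec.snd.comp Primrec.snd))

section enum

variable (q : List Bool × (ℕ × List Bool) → ℕ → Prop)

/-- the string enumerated at the step `j` -/
def Hit (σ : List Bool) (i j : ℕ) (x : List Bool) : Prop :=
  ∃ s < j.unpair.2 + 1, q (σ.take s, (i, x)) j.unpair.2

open Classical in
/-- the string enumerated at the step `j`, if any -/
noncomputable def hit (σ : List Bool) (i j : ℕ) : Option (List Bool) :=
  (decode₂ (List Bool) j.unpair.1).bind fun x => if Hit q σ i j x then some x else none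

/-- the strings enumerated with the help of `σ` -/
noncomputable def enum (σ : List Bool) (i : ℕ) : List (List Bool) :=
  (List.range σ.length).filterMap (hit q σ i)

theorem hit_eq_some {σ : List Bool} {i j : ℕ} {x : List Bool} :
    hit q σ i j = some x ↔ encode x = j.unpair.1 ∧ Hit q σ i j x := by
  unfold hit
  rw [Option.bind_eq_some_iff]
  constructor
  · rintro ⟨y, hy, h⟩
    split_ifs at h with h1
    cases h
    exact ⟨mem_decode₂.1 hy, h1⟩
  · rintro ⟨h1, h2⟩
    exact ⟨x, mem_decode₂.2 h1, if_pos h2⟩

variable {q}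

theorem primrec_enum (hq : PrimrecRel q) :
    Primrec fun x : List Bool × ℕ => enum q x.1 x.2 := by
  classical
  have h1 : PrimrecPred fun z : ((List Bool × ℕ) × ℕ) × List Bool =>
      Hit q z.1.1.1 z.1.1.2 z.1.2 z.2 := by
    refine PP.ex_lt (α := ((List Bool × ℕ) × ℕ) × List Bool) (f := fun z => z.1.2.unpair.2 + 1)
      (p := fun z s => q (z.1.1.1.take s, (z.1.1.2, z.2)) z.1.2.unpair.2) ?_
      (Primrec.succ.comp (Primrec.snd.comp (Primrec.unpair.comp (Primrec.snd.comp Primrec.fst))))
    refine hq.comp (Primrec.pair ?_ (Primrec.pair ?_ ?_)) ?_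
    · exact Primrec.list_take.comp Primrec.snd
        (Primrec.fst.comp (Primrec.fst.comp (Primrec.fst.comp Primrec.fst)))
    · exact Primrec.snd.comp (Primrec.fst.comp (Primrec.fst.comp Primrec.fst))
    · exact Primrec.snd.comp Primrec.fst
    · exact Primrec.snd.comp (Primrec.unpair.comp
        (Primrec.snd.comp (Primrec.fst.comp Primrec.fst)))
  refine Primrec.listFilterMap (Primrec.list_range.comp (Primrec.list_length.comp Primrec.fst)) ?_
  refine Primrec.option_bind (Primrec.decode₂.comp (Primrec.fst.comp
    (Primrec.unpair.comp Primrec.snd))) ?_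
  exact Primrec.ite h1 (Primrec.option_some.comp Primrec.snd) (Primrec.const none)

theorem enum_pre {B : ℕ → Bool} {m m' : ℕ} (h : m ≤ m') (i : ℕ) :
    enum q (pre B m) i <+: enum q (pre B m') i := by
  have key : ∀ n M : ℕ, n ≤ M → (List.range n).filterMap (hit q (pre B M) i) =
      enum q (pre B n) i := by
    intro n M hnM
    unfold enum
    rw [length_pre]
    apply List.filterMap_congr
    intro j hj
    rw [List.mem_range] at hj
    have key2 : ∀ x, Hit q (pre B M) i j x ↔ Hit q (pre B n) i j x := by
      intro x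
      unfold Hit
      refine exists_congr fun s => and_congr_right fun hs => ?_
      have h1 : j.unpair.2 ≤ j := Nat.unpair_right_le j
      rw [take_pre B _ _ (by omega), take_pre B _ _ (by omega)]
    apply Option.ext
    intro x
    rw [hit_eq_some, hit_eq_some, key2 x]
  rw [← key m m' h]
  unfold enum
  rw [length_pre]
  apply List.IsPrefix.filterMap
  rw [List.prefix_iff_eq_take, List.length_range, List.take_range, min_eq_left h]

theorem mem_enum {B : ℕ → Bool} {P : ℕ × List Bool → Prop}
    {E : List Bool × (ℕ × List Bool) → Prop}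
    (hmono : ∀ a m n, m ≤ n → q a m → q a n) (hE : ∀ a, E a ↔ ∃ n, q a n)
    (hP : ∀ a, P a ↔ ∃ s, E (pre B s, a)) (i : ℕ) (x : List Bool) :
    P (i, x) ↔ ∃ m, x ∈ enum q (pre B m) i := by
  constructor
  · intro h
    obtain ⟨s, hs⟩ := (hP _).1 h
    obtain ⟨n, hn⟩ := (hE _).1 hs
    refine ⟨Nat.pair (encode x) (max s n) + 1, ?_⟩
    unfold enum
    rw [List.mem_filterMap]
    refine ⟨Nat.pair (encode x) (max s n), by simp, ?_⟩
    rw [hit_eq_some]
    refine ⟨by simp, s, by simp, ?_⟩
    rw [Nat.unpair_pair]
    have h1 : s ≤ Nat.pair (encode x) (max s n) + 1 := by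
      have := Nat.right_le_pair (encode x) (max s n)
      omega
    rw [take_pre B _ _ h1]
    exact hmono _ _ _ (le_max_right _ _) hn
  · rintro ⟨m, hm⟩
    unfold enum at hm
    rw [List.mem_filterMap] at hm
    obtain ⟨j, hj, h1⟩ := hm
    rw [length_pre, List.mem_range] at hj
    obtain ⟨-, s, hs, h2⟩ := (hit_eq_some q).1 h1
    have h3 : j.unpair.2 ≤ j := Nat.unpair_right_le j
    rw [take_pre B _ _ (by omega)] at h2
    exact (hP _).2 ⟨s, (hE _).2 ⟨_, h2⟩⟩

/-- the matrix of the graph -/
def Mat (k : ℕ → ℕ) (q : List Bool × (ℕ × List Bool) → ℕ → Prop)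
    (t : List Bool × List Bool × List Bool) (i : ℕ) (z rest x : List Bool) : Prop :=
  t.2.1 = hd i ++ z ++ rest ∧ z.length = k i ∧
    t.2.2 = x ++ rest ∧ (nd (enum q t.1 i))[val z]? = some x

/-- the graph of the machine -/
def Gr (k : ℕ → ℕ) (q : List Bool × (ℕ × List Bool) → ℕ → Prop)
    (t : List Bool × List Bool × List Bool) : Prop :=
  ∃ i : ℕ, ∃ z : List Bool, ∃ rest : List Bool, ∃ x : List Bool, Mat k q t i z rest x

/-- the type of the matrix -/
abbrev W : Type := ((((List Bool × List Bool × List Bool) × ℕ) × List Bool) × List Bool) × List Bool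

theorem s1_Gr {k : ℕ → ℕ} (hk : Primrec k) (hq : PrimrecRel q) : S1 (Gr k q) := by
  -- the variables: `(((t, i), z), rest), x`
  have et : Primrec fun w : W => w.1.1.1.1 :=
    Primrec.fst.comp (Primrec.fst.comp (Primrec.fst.comp Primrec.fst))
  have ei : Primrec fun w : W => w.1.1.1.2 :=
    Primrec.snd.comp (Primrec.fst.comp (Primrec.fst.comp Primrec.fst))
  have ez : Primrec fun w : W => w.1.1.2 :=
    Primrec.snd.comp (Primrec.fst.comp Primrec.fst)
  have er : Primrec fun w : W => w.1.2 :=
    Primrec.snd.comp Primrec.fst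
  have ex : Primrec fun w : W => w.2 := Primrec.snd
  have e1 : Primrec fun w : W => (w.1.1.1.1.1, w.1.1.1.2) := (Primrec.fst.comp et).pair ei
  have e2 : Primrec fun w : W => enum q w.1.1.1.1.1 w.1.1.1.2 :=
    Primrec.comp (f := fun x : List Bool × ℕ => enum q x.1 x.2)
      (g := fun w : W => (w.1.1.1.1.1, w.1.1.1.2)) (primrec_enum hq) e1
  have e3 : Primrec fun w : W => nd (enum q w.1.1.1.1.1 w.1.1.1.2) := primrec_nd.comp e2
  have e4 : Primrec fun w : W => val w.1.1.2 := primrec_val.comp ez
  have e5 : Primrec fun w : W => (nd (enum q w.1.1.1.1.1 w.1.1.1.2))[val w.1.1.2]? :=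
    Primrec.list_getElem?.comp e3 e4
  have p1 : PrimrecPred fun w : W => w.1.1.1.1.2.1 = hd w.1.1.1.2 ++ w.1.1.2 ++ w.1.2 :=
    Primrec.eq.comp (Primrec.fst.comp (Primrec.snd.comp et))
      (Primrec.list_append.comp (Primrec.list_append.comp (primrec_hd.comp ei) ez) er)
  have p2 : PrimrecPred fun w : W => w.1.1.2.length = k w.1.1.1.2 :=
    Primrec.eq.comp (Primrec.list_length.comp ez) (hk.comp ei)
  have p3 : PrimrecPred fun w : W => w.1.1.1.1.2.2 = w.2 ++ w.1.2 :=
    Primrec.eq.comp (Primrec.snd.comp (Primrec.snd.comp et)) (Primrec.list_append.comp ex er)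
  have p4 : PrimrecPred fun w : W =>
      (nd (enum q w.1.1.1.1.1 w.1.1.1.2))[val w.1.1.2]? = some w.2 :=
    Primrec.eq.comp e5 (Primrec.option_some.comp ex)
  have s4 : S1 fun w : W => Mat k q w.1.1.1.1 w.1.1.1.2 w.1.1.2 w.1.2 w.2 :=
    S1.of_prim (PrimrecPred.and p1 (PrimrecPred.and p2 (PrimrecPred.and p3 p4)))
  have s3 : S1 fun w : (((List Bool × List Bool × List Bool) × ℕ) × List Bool) × List Bool =>
      ∃ x : List Bool, Mat k q w.1.1.1 w.1.1.2 w.1.2 w.2 x :=
    S1.ex (p := fun (w : (((List Bool × List Bool × List Bool) × ℕ) × List Bool) × List Bool)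
      (x : List Bool) => Mat k q w.1.1.1 w.1.1.2 w.1.2 w.2 x) s4
  have s2 : S1 fun w : ((List Bool × List Bool × List Bool) × ℕ) × List Bool =>
      ∃ rest : List Bool, ∃ x : List Bool, Mat k q w.1.1 w.1.2 w.2 rest x :=
    S1.ex (p := fun (w : ((List Bool × List Bool × List Bool) × ℕ) × List Bool)
      (rest : List Bool) => ∃ x : List Bool, Mat k q w.1.1 w.1.2 w.2 rest x) s3
  have s1 : S1 fun w : (List Bool × List Bool × List Bool) × ℕ =>
      ∃ z : List Bool, ∃ rest : List Bool, ∃ x : List Bool, Mat k q w.1 w.2 z rest x :=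
    S1.ex (p := fun (w : (List Bool × List Bool × List Bool) × ℕ)
      (z : List Bool) => ∃ rest : List Bool, ∃ x : List Bool, Mat k q w.1 w.2 z rest x) s2
  exact S1.ex (p := fun (t : List Bool × List Bool × List Bool)
      (i : ℕ) => ∃ z : List Bool, ∃ rest : List Bool, ∃ x : List Bool, Mat k q t i z rest x) s1

end enum

end ModSMALL

open ModSMALL in
theorem small : StmSMALL := by
  intro B P hP k hk hcard
  obtain ⟨E, hE, -, eE⟩ := hP
  obtain ⟨q, hq, hmono, hEq⟩ := hE
  have huniq : ∀ p y y' : List Bool, (∃ s, Gr k q (pre B s, p, y)) →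
      (∃ s, Gr k q (pre B s, p, y')) → y = y' := by
    rintro p y y' ⟨s, i, z, rest, x, h1, h2, h3, h4⟩ ⟨s', i', z', rest', x', h1', h2', h3', h4'⟩
    simp only at h1 h3 h4 h1' h3' h4'
    rw [h1, List.append_assoc, List.append_assoc] at h1'
    obtain ⟨rfl, h5⟩ := hd_inj h1'
    obtain ⟨rfl, rfl⟩ := List.append_inj h5 (h2.trans h2'.symm)
    have h6 : x = x' := by
      rcases le_total s s' with h | h
      · obtain ⟨r, hr⟩ := nd_prefix (enum_pre (q := q) (B := B) h i)
        rw [← hr, List.getElem?_append_left (List.getElem?_eq_some_iff.1 h4).1, h4] at h4'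
        exact Option.some.inj h4'
      · obtain ⟨r, hr⟩ := nd_prefix (enum_pre (q := q) (B := B) h i)
        rw [← hr, List.getElem?_append_left (List.getElem?_eq_some_iff.1 h4').1, h4'] at h4
        exact (Option.some.inj h4).symm
    rw [h3, h3', h6]
  refine ⟨partOf fun p y => ∃ s, Gr k q (pre B s, p, y), ?_, ?_⟩
  · exact recIn_of_graph' (G := Gr k q) (s1_Gr hk hq)
      fun a b => mem_partOf (huniq a)
  · intro i x hx
    obtain ⟨m, hm⟩ := (mem_enum hmono hEq eE i x).1 hx
    have h1 : x ∈ nd (enum q (pre B m) i) := (mem_nd _ _).2 hm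
    obtain ⟨r, hr, hrx⟩ := List.mem_iff_getElem.1 h1
    have h2 : (nd (enum q (pre B m) i)).length ≤ 2 ^ k i := by
      rw [← List.toFinset_card_of_nodup (nodup_nd _)]
      apply hcard i
      intro y hy
      rw [List.mem_toFinset, mem_nd] at hy
      exact (mem_enum hmono hEq eE i y).2 ⟨m, hy⟩
    obtain ⟨z, hz, hv⟩ := exists_val (k i) r (lt_of_lt_of_le hr h2)
    refine ⟨z, hz, fun rest => ?_⟩
    have h7 : Mat k q (pre B m, hd i ++ z ++ rest, x ++ rest) i z rest x := by
      have h8 : (nd (enum q (pre B m) i))[val z]? = some x := by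
        rw [hv]
        exact List.getElem?_eq_some_iff.2 ⟨hr, hrx⟩
      exact ⟨rfl, hz, rfl, h8⟩
    have h9 : Gr k q (pre B m, hd i ++ z ++ rest, x ++ rest) := ⟨i, z, rest, x, h7⟩
    exact (mem_partOf (huniq _)).2 ⟨m, h9⟩

end Pool.Agent.T6.H92.CB
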