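import Pool.Agent.T6.H92.CB.Defs

/-!
Project CB: further definitions and module statements.
-/

set_option autoImplicit false

namespace Pool.Agent.T6.H92.CB

open Pool.Agent.Helper227 (chi pre SI S1)

/-- the strings of length `n` in lexicographic order -/
def strs : ℕ → List (List Bool)
  | 0 => [[]]
  | n + 1 => (strs n).flatMap (fun v => [v ++ [false], v ++ [true]])

/-- some initial segment of `v` has a short description at stage `t` -/
def bad (t : ℕ) (v : List Bool) : Prop :=
  ∃ e < t, ∃ l < v.length + 1, ∃ k < l, ∃ τ ∈ strs k, k + 2 * Nat.log 2 (l + 1) + e + 5 < l ∧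
    Nat.Partrec.Code.evaln t (Denumerable.ofNat Nat.Partrec.Code e) (Encodable.encode τ) =
      some (Encodable.encode (v.take l))

open Classical in
/-- the least string of length `t` that is not bad at stage `t` -/
noncomputable def apr (t : ℕ) : List Bool :=
  ((strs t).filter (fun v => decide (¬ bad t v))).headD (List.replicate t false)

/-- module RANDP -/
def StmRANDP : Prop := Primrec apr

/-- module RANDX -/
def StmRANDX : Prop := (∀ t, (apr t).length = t) ∧
  ∃ X : ℕ → Bool, (∀ m, ∃ T, ∀ t, T ≤ t → (apr t).take m = pre X m) ∧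
    ∀ U : List Bool →. List Bool, Partrec U → ∃ c : ℕ, ∀ (n : ℕ) (τ : List Bool),
      pre X n ∈ U τ → n ≤ τ.length + 2 * Nat.log 2 (n + 1) + c

/-- module PRA -/
def StmPRA : Prop := Primrec (fun n : ℕ => 2 ^ n) ∧ Primrec mi ∧ Primrec si ∧ Primrec ri ∧
  Primrec li ∧ ∀ ap : ℕ → List Bool, Primrec ap → Primrec (fun p : ℕ × ℕ => lab ap p.1 p.2)

/-- module PRB -/
def StmPRB : Prop := StmPRA → ∀ ap : ℕ → List Bool, Primrec ap →
  PrimrecPred (fun p : ℕ × ℕ × List Bool => Ok ap p.1 p.2.1 p.2.2)

/-- module PRC -/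
def StmPRC : Prop := StmPRA → ∀ ap : ℕ → List Bool, Primrec ap →
  Primrec (fun p : ℕ × List Bool => fv ap p.1 p.2)

end Pool.Agent.T6.H92.CB
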