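import Pool.Agent.T6.H92.CB.Defs

/-!
Project CB: oracle machines.
-/

set_option autoImplicit false

namespace Pool.Agent.T6.H92.CB

open Pool.Agent.Helper227 (chi pre SI S1)

/-- `V` is an oracle machine: the graph of `V B` is enumerated from finite initial segments of
the oracle `B`, uniformly in `B`. -/
def IsOM (V : (ℕ → Bool) → List Bool →. List Bool) : Prop :=
  ∃ G : List Bool × List Bool × List Bool → Prop, REPred G ∧
    (∀ σ σ' τ y, σ <+: σ' → G (σ, τ, y) → G (σ', τ, y)) ∧
    ∀ (B : ℕ → Bool) (τ y : List Bool), y ∈ V B τ ↔ ∃ s, G (pre B s, τ, y)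

/-- `V` is an optimal oracle machine. -/
def IsOptOM (V : (ℕ → Bool) → List Bool →. List Bool) : Prop :=
  IsOM V ∧ ∀ M : (ℕ → Bool) → List Bool →. List Bool, IsOM M → ∃ c : ℕ,
    ∀ (B : ℕ → Bool) (τ y : List Bool), y ∈ M B τ →
      ∃ τ' : List Bool, τ'.length ≤ τ.length + c ∧ y ∈ V B τ'

/-- module ORM: an optimal oracle machine with the oracle `B` is an optimal machine relative
to `B` -/
def StmORM : Prop := ∀ V : (ℕ → Bool) → List Bool →. List Bool, IsOptOM V → ∀ B : ℕ → Bool,
  IsOptIn B (V B)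

/-- module OPO: there is an optimal oracle machine -/
def StmOPO : Prop := ∃ V : (ℕ → Bool) → List Bool →. List Bool, IsOptOM V

end Pool.Agent.T6.H92.CB
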