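import Pool.Agent.T6.H92.CB.Defs2

set_option autoImplicit false

namespace Pool.Agent.T6.H92.CB

open Pool.Agent.Helper227 (chi pre SI S1)

namespace ModFIN

theorem length_hd (i : ℕ) : (hd i).length = i + 1 := by simp [hd]

theorem length_pre (X : ℕ → Bool) (n : ℕ) : (pre X n).length = n := by simp [pre]

theorem pre_split (X : ℕ → Bool) {m n : ℕ} (h : m ≤ n) :
    pre X m ++ (pre X n).drop m = pre X n := by
  have h1 : pre X m = (pre X n).take m := by
    simp only [pre, ← List.map_take, List.take_range, min_eq_left h]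
  rw [h1]
  exact List.take_append_drop m _

theorem CU_le {U : List Bool →. List Bool} {y τ : List Bool} (h : y ∈ U τ) : CU U y ≤ τ.length :=
  Nat.sInf_le ⟨τ, rfl, h⟩

theorem exists_min {U : List Bool →. List Bool} (hU : IsOpt U) (y : List Bool) :
    ∃ τ : List Bool, τ.length = CU U y ∧ y ∈ U τ := by
  obtain ⟨c, hc⟩ := hU.2 (fun _ => Part.some y) (Computable.const y).partrec
  obtain ⟨τ, _, hτ⟩ := hc [] y (Part.mem_some y)
  have hne : {n | ∃ τ : List Bool, τ.length = n ∧ y ∈ U τ}.Nonempty := ⟨τ.length, τ, rfl, hτ⟩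
  exact Nat.sInf_mem hne

theorem four_pow (i : ℕ) (h : 6 ≤ i) : 256 * i ≤ 4 ^ i := by
  induction i, h using Nat.le_induction with
  | base => norm_num
  | succ n hn ih => rw [pow_succ]; omega

theorem two_pow (i : ℕ) (h : 3 ≤ i) : i + 3 ≤ 2 ^ i := by
  induction i, h using Nat.le_induction with
  | base => norm_num
  | succ n hn ih => rw [pow_succ]; omega

theorem li_le (i : ℕ) (h : 3 ≤ i) : li i ≤ 16 ^ i := by
  have h1 : (16 : ℕ) ^ i = 8 ^ i * 2 ^ i := by rw [← mul_pow]; norm_num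
  rw [h1, li, mi, wi]
  exact Nat.mul_le_mul_left _ (two_pow i h)

theorem mi_le (i : ℕ) : mi i ≤ 16 ^ i := Nat.pow_le_pow_left (by norm_num) i

theorem big (i C : ℕ) (h : 6 ≤ i) (hC : C ≤ i) : ri i + 9 * i + 9 + C < mi i := by
  have h1 : (8 : ℕ) ^ i = 4 ^ i * 2 ^ i := by rw [← mul_pow]; norm_num
  have h2 := four_pow i h
  have h3 : 256 * i * 2 ^ i ≤ 8 ^ i := by rw [h1]; exact Nat.mul_le_mul_right _ h2
  have h4 : ri i = 128 * i * 2 ^ i := by rw [ri, wi, pow_add]; ring
  have h5 : 256 * i * 2 ^ i = 128 * i * 2 ^ i + 128 * i * 2 ^ i := by ring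
  have h6 : 128 * i ≤ 128 * i * 2 ^ i := Nat.le_mul_of_pos_right _ (by positivity)
  rw [mi, h4]
  omega

theorem li_ge (i : ℕ) (h : 6 ≤ i) : 16 * i ≤ li i := by
  have h1 := big i 0 h (Nat.zero_le _)
  have h2 : ri i = 16 * i * 2 ^ wi i := rfl
  have h3 : 16 * i ≤ 16 * i * 2 ^ wi i := Nat.le_mul_of_pos_right _ (by positivity)
  have h4 : mi i ≤ mi i * wi i := Nat.le_mul_of_pos_right _ (by rw [wi]; omega)
  rw [li]
  omega

end ModFIN

open ModFIN

/-- **module FIN** -/
theorem fin (hA : StmPRA) : StmFIN := by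
  intro small rand sia sib crd dens
  obtain ⟨ap, hap, hlen, X, hX, hinc⟩ := rand
  refine ⟨X, setA ap X, dens ap X, ?_⟩
  intro U hU B hBA hinf V hV c
  obtain ⟨c0, hc0⟩ := hinc U hU.1
  obtain ⟨hpow, hmi, hsi, hri, hli, hlab⟩ := hA
  have hk1 : Primrec (fun i : ℕ => li i - 16 * i) :=
    Primrec.nat_sub.comp hli (Primrec.nat_mul.comp (Primrec.const 16) Primrec.id)
  obtain ⟨M1, hM1, hP1⟩ := small B (P1 ap B) (sia ap hap B) (fun i => li i - 16 * i) hk1
    (crd ap hlen B).1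
  obtain ⟨M2, hM2, hP2⟩ := small B (P2 ap B) (sib ap hap B) ri hri (crd ap hlen B).2
  obtain ⟨c1, hc1⟩ := hV.2 M1 hM1
  obtain ⟨c2, hc2⟩ := hV.2 M2 hM2
  set i0 := c0 + c1 + c2 + c + 10 with hi0
  refine ⟨16 ^ i0, fun n hn => ?_⟩
  set i := Nat.log 16 n with hi
  have hn0 : n ≠ 0 := by
    have : 0 < 16 ^ i0 := by positivity
    omega
  have h1 : 16 ^ i ≤ n := Nat.pow_log_le_self 16 hn0
  have h2 : n < 16 ^ (i + 1) := Nat.lt_pow_succ_log_self (by norm_num) n
  have h3 : i0 ≤ i := by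
    rw [hi]
    exact (Nat.le_log_iff_pow_le (by norm_num) hn0).2 hn
  have h4 : Nat.log 2 (n + 1) ≤ 4 * (i + 1) := by
    have h5 : n + 1 ≤ 2 ^ (4 * (i + 1)) := by
      rw [pow_mul]
      norm_num
      omega
    calc Nat.log 2 (n + 1) ≤ Nat.log 2 (2 ^ (4 * (i + 1))) := Nat.log_mono_right h5
      _ = 4 * (i + 1) := Nat.log_pow (by norm_num) _
  -- the lower bound
  obtain ⟨τ0, hτ0, hτ0'⟩ := exists_min hU (pre X n)
  have h5 := hc0 n τ0 hτ0'
  rw [hτ0] at h5
  have hi6 : 6 ≤ i := by omega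
  by_cases hcase : ∃ s, 2 ^ ri i ≤ (fv ap i (pre B s)).length
  · -- many labels
    obtain ⟨s, hs⟩ := hcase
    have hP : P1 ap B (i, pre X (li i)) := by
      refine ⟨length_pre _ _, s, hs, fun b _ hb hsb => ?_⟩
      have h6 := hBA b hb
      simp only [setA, decide_eq_true_eq] at h6
      exact h6 i hsb
    obtain ⟨z, hz, hz'⟩ := hP1 i _ hP
    have h6 := hz' ((pre X n).drop (li i))
    have h7 : li i ≤ n := (li_le i (by omega)).trans h1
    rw [pre_split X h7] at h6
    obtain ⟨τ', h8, h9⟩ := hc1 _ _ h6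
    have h10 := CU_le h9
    simp only [List.length_append, length_hd, hz, List.length_drop, length_pre] at h8
    have h11 := li_ge i hi6
    omega
  · -- few labels
    push Not at hcase
    obtain ⟨T, hT⟩ := hX (mi i)
    obtain ⟨b, hb, hb2⟩ := hinf.exists_gt (max (si i) (T * 2 ^ wi i))
    have hb3 : si i ≤ b := by omega
    have hb4 : T ≤ b / 2 ^ wi i := by
      rw [Nat.le_div_iff_mul_le (by positivity)]
      omega
    have hP : P2 ap B (i, pre X (mi i)) :=
      ⟨b, hb, hb3, hT _ hb4, hcase b⟩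
    obtain ⟨z, hz, hz'⟩ := hP2 i _ hP
    have h6 := hz' ((pre X n).drop (mi i))
    have h7 : mi i ≤ n := (mi_le i).trans h1
    rw [pre_split X h7] at h6
    obtain ⟨τ', h8, h9⟩ := hc2 _ _ h6
    have h10 := CU_le h9
    simp only [List.length_append, length_hd, hz, List.length_drop, length_pre] at h8
    have h11 := big i (c0 + c2 + c) hi6 (by omega)
    omega

end Pool.Agent.T6.H92.CB
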